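import Pool.Agent.Q75.HM.Stm

set_option autoImplicit false

/-! # Project HM, lemma CC (connected cross-sections), helper75 -/

namespace Pool.Agent.Q75.HM

open Complex Set Metric Filter Topology

open scoped Real ComplexConjugate

theorem ld_conn {S : Set ℂ} (hS : LD S) (h0 : (0 : ℂ) ∈ S) : IsPreconnected S := by
  apply isPreconnected_of_forall (0 : ℂ)
  intro z hz
  refine ⟨segment ℝ z (z.re : ℂ) ∪ segment ℝ (z.re : ℂ) 0, ?_, ?_, ?_, ?_⟩
  · rintro w (hw | hw)
    · obtain ⟨a, b, ha, hb, hab, rfl⟩ := hw
      apply hS.2 z hz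
      · simp only [add_re, real_smul, re_ofReal_mul, ofReal_re]
        have : a * z.re + b * z.re = z.re := by rw [← add_mul, hab, one_mul]
        exact this.le
      · simp only [add_im, real_smul, im_ofReal_mul, ofReal_im, mul_zero, add_zero]
        rw [abs_mul, abs_of_nonneg ha]
        have := abs_nonneg z.im
        nlinarith
    · obtain ⟨a, b, ha, hb, hab, rfl⟩ := hw
      rcases le_total z.re 0 with h | h
      · apply hS.2 0 h0
        · simp only [add_re, real_smul, re_ofReal_mul, ofReal_re, zero_re, mul_zero, add_zero]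
          nlinarith
        · simp
      · apply hS.2 z hz
        · simp only [add_re, real_smul, re_ofReal_mul, ofReal_re, zero_re, mul_zero, add_zero]
          nlinarith
        · simp
  · exact Or.inr (right_mem_segment ℝ _ _)
  · exact Or.inl (left_mem_segment ℝ _ _)
  · exact IsPreconnected.union (z.re : ℂ) (right_mem_segment ℝ _ _) (left_mem_segment ℝ _ _)
      (convex_segment _ _).isPreconnected (convex_segment _ _).isPreconnected

theorem t_CC : S_CC := by
  intro G hG h0
  refine ⟨?_, ⟨⟨0, h0⟩, ld_conn hG h0⟩, ?_⟩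
  · intro t ht
    have hS : LD {z | z ∈ G ∧ z.re < t} := by
      refine ⟨hG.1.inter (isOpen_lt Complex.continuous_re continuous_const), ?_⟩
      rintro z ⟨h1, h2⟩ w h3 h4
      exact ⟨hG.2 z h1 w h3 h4, lt_of_le_of_lt h3 h2⟩
    have h0S : (0 : ℂ) ∈ {z | z ∈ G ∧ z.re < t} := ⟨h0, by simpa using ht⟩
    exact (ld_conn hS h0S).connectedComponentIn h0S
  · intro z hz w hw
    obtain ⟨a, b, ha, hb, hab, rfl⟩ := hw
    apply hG.2 z hz
    · simp only [add_re, real_smul, re_ofReal_mul, conj_re]
      have : a * z.re + b * z.re = z.re := by rw [← add_mul, hab, one_mul]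
      exact this.le
    · simp only [add_im, real_smul, im_ofReal_mul, conj_im]
      have h1 : a * z.im + b * -z.im = (a - b) * z.im := by ring
      rw [h1, abs_mul]
      have h2 : |a - b| ≤ 1 := abs_le.2 ⟨by linarith, by linarith⟩
      have := abs_nonneg z.im
      nlinarith

end Pool.Agent.Q75.HM
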