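import Pool.Agent.Q75.HM.Stm

set_option autoImplicit false

/-! # Project HM, lemma CO (continuity in the height), helper75 -/

namespace Pool.Agent.Q75.HM

open Complex Set Metric Filter Topology

open scoped Real ComplexConjugate

/-- the points between the two doubled domains -/
theorem co_between {G : Set ℂ} {t' t c' c1 c2 : ℝ} (hGb : ∀ z ∈ G, z.re < t') (ht : t' < t)
    (hHS : HS t' c' ⊆ G) (hc2 : c2 ≤ c') {w : ℂ} (hw : w ∈ Wd (G ∪ HS t c2) t)
    (hw1 : w ∉ Wd (G ∪ HS t c1) t) :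
    c1 ≤ |w.im| ∧ |w.im| < c2 ∧ t' ≤ w.re ∧ w.re ≤ 2 * t - t' := by
  have h1 : c1 ≤ |w.im| := by
    by_contra h
    rw [not_le] at h
    exact hw1 (Or.inr ⟨c1, h, subset_union_right⟩)
  have hL : w.re < t → w ∈ G ∪ HS t c2 → |w.im| < c2 ∧ t' ≤ w.re ∧ w.re ≤ 2 * t - t' := by
    intro hlt hm
    have hnG : w ∉ G := fun h => hw1 (Or.inl (Or.inl ⟨hlt, Or.inl h⟩))
    have h2 : w ∈ HS t c2 := hm.resolve_left hnG
    refine ⟨h2.2, ?_, by linarith⟩
    by_contra h
    rw [not_le] at h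
    exact hnG (hHS ⟨h, lt_of_lt_of_le h2.2 hc2⟩)
  have hR : t < w.re → rf t w ∈ G ∪ HS t c2 → |w.im| < c2 ∧ t' ≤ w.re ∧ w.re ≤ 2 * t - t' := by
    intro hlt hm
    have hnG : rf t w ∉ G := fun h => hw1 (Or.inl (Or.inr ⟨hlt, Or.inl h⟩))
    have h2 : rf t w ∈ HS t c2 := hm.resolve_left hnG
    refine ⟨h2.2, by linarith, ?_⟩
    by_contra h
    rw [not_le] at h
    refine hnG (hHS ⟨?_, lt_of_lt_of_le h2.2 hc2⟩)
    change 2 * t - w.re < t'
    linarith
  refine ⟨h1, ?_⟩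
  rcases hw with (⟨h2, h3⟩ | ⟨h2, h3⟩) | ⟨y, hy, hy2⟩
  · exact hL h2 h3
  · exact hR h2 h3
  · rcases lt_trichotomy w.re t with h2 | h2 | h2
    · exact hL h2 (hy2 ⟨h2, hy⟩)
    · refine ⟨?_, by linarith, by linarith⟩
      have h3 : (⟨(t' + t) / 2, w.im⟩ : ℂ) ∈ G ∪ HS t c2 := by
        apply hy2
        refine ⟨?_, hy⟩
        change (t' + t) / 2 < t
        linarith
      rcases h3 with h3 | h3
      · have h4 := hGb _ h3
        change (t' + t) / 2 < t' at h4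
        linarith
      · exact h3.2
    · refine hR h2 (hy2 ⟨?_, hy⟩)
      change 2 * t - w.re < t
      linarith

/-- the rays in the complement -/
theorem co_ray {G : Set ℂ} {t' t c2 : ℝ} (hGb : ∀ z ∈ G, z.re < t') (ht : t' < t)
    {x v : ℝ} (hx1 : t' ≤ x) (hx2 : x ≤ 2 * t - t') (hv : c2 ≤ |v|) :
    (⟨x, v⟩ : ℂ) ∉ Wd (G ∪ HS t c2) t := by
  rintro ((⟨_, h3⟩ | ⟨_, h3⟩) | ⟨y, hy, hy2⟩)
  · rcases h3 with h3 | h3
    · exact absurd (hGb _ h3) (not_lt.2 hx1)
    · exact absurd h3.2 (not_lt.2 hv)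
  · rcases h3 with h3 | h3
    · have h4 := hGb _ h3
      change 2 * t - x < t' at h4
      linarith
    · exact absurd h3.2 (not_lt.2 hv)
  · have h3 : (⟨(t' + t) / 2, v⟩ : ℂ) ∈ G ∪ HS t c2 := by
      apply hy2
      refine ⟨?_, hy⟩
      change (t' + t) / 2 < t
      linarith
    rcases h3 with h3 | h3
    · have h4 := hGb _ h3
      change (t' + t) / 2 < t' at h4
      linarith
    · exact absurd h3.2 (not_lt.2 hv)

theorem ld_hs' (s c : ℝ) : LD (HS s c) := by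
  refine ⟨?_, ?_⟩
  · exact (isOpen_lt Complex.continuous_re continuous_const).inter
      (isOpen_lt (continuous_abs.comp Complex.continuous_im) continuous_const)
  · rintro z ⟨h1, h2⟩ w h3 h4
    exact ⟨lt_of_le_of_lt h3 h1, lt_of_le_of_lt h4 h2⟩

theorem wd_mono {A B : Set ℂ} (h : A ⊆ B) (t : ℝ) : Wd A t ⊆ Wd B t := by
  rintro z ((⟨h2, h3⟩ | ⟨h2, h3⟩) | ⟨y, hy, hy2⟩)
  · exact Or.inl (Or.inl ⟨h2, h h3⟩)
  · exact Or.inl (Or.inr ⟨h2, h h3⟩)
  · exact Or.inr ⟨y, hy, hy2.trans h⟩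

theorem t_CO (hQB : S_QB) (hWD : S_WD) (hCM : S_CM) (hTI : S_TI) : S_CO := by
  intro G t' t c' M hG hGb htt ht0 hc' hHS
  set F : ℝ → ℝ := fun c => qn (Wd (G ∪ HS t c) t) t 0 with hF
  have hGb' : ∀ z ∈ G, z.re < t' := fun z hz => (hGb z hz).1
  have hΩ : ∀ c, 0 < c → Dm (Wd (G ∪ HS t c) t) ∧ (t : ℂ) ∈ Wd (G ∪ HS t c) t ∧
      (0 : ℂ) ∈ Wd (G ∪ HS t c) t := by
    intro c hc
    have hLD : LD (G ∪ HS t c) := by
      refine ⟨hG.1.union (ld_hs' t c).1, ?_⟩
      rintro z (h | h) w h3 h4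
      · exact Or.inl (hG.2 z h w h3 h4)
      · exact Or.inr ((ld_hs' t c).2 z h w h3 h4)
    have h := hWD (G ∪ HS t c) t c (max M c) hLD hc subset_union_right (by
      rintro z (hz | hz)
      · exact lt_of_lt_of_le (hGb z hz).2 (le_max_left _ _)
      · exact lt_of_lt_of_le hz.2 (le_max_right _ _))
    exact ⟨h.1, h.2.1 _ (by simpa using hc), h.2.1 _ (by simpa using hc)⟩
  have hpos : ∀ c, 0 < c → 0 < F c := by
    intro c hc
    obtain ⟨h1, h2, h3⟩ := hΩ c hc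
    exact (hQB _ _ _ h1 h2 h3).2.1
  have hsub : ∀ c1 c2 : ℝ, c1 ≤ c2 → Wd (G ∪ HS t c1) t ⊆ Wd (G ∪ HS t c2) t := by
    intro c1 c2 h
    apply wd_mono
    apply union_subset_union_right
    intro z hz
    exact ⟨hz.1, lt_of_lt_of_le hz.2 h⟩
  have hmono : ∀ c1 c2 : ℝ, 0 < c1 → c1 ≤ c2 → F c2 ≤ F c1 := by
    intro c1 c2 h0 h
    obtain ⟨h1, h2, h3⟩ := hΩ c1 h0
    exact (hQB _ _ _ h1 h2 h3).2.2.1 _ (hsub c1 c2 h)
  have hcmp : ∀ c1 c2 : ℝ, 0 < c1 → c1 ≤ c2 → c2 ≤ c' → 6 * √((c2 - c1) / c2) < 1 →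
      (1 - 6 * √((c2 - c1) / c2)) * F c1 ≤ F c2 := by
    intro c1 c2 h0 h hc hε
    have hc2 : 0 < c2 := lt_of_lt_of_le h0 h
    obtain ⟨h1, h2, h3⟩ := hΩ c1 h0
    obtain ⟨h4, h5, h6⟩ := hΩ c2 hc2
    refine hCM _ _ _ _ _ h1 h4 (hsub c1 c2 h) h2 h3 (by positivity) hε ?_
    intro w hw hw1
    obtain ⟨b1, b2, b3, b4⟩ := co_between hGb' htt hHS hc hw hw1
    have h7 := hTI (Wd (G ∪ HS t c2) t) t w.re w.im c2 h4 h5 hw hc2 b2 (by
      intro s hs
      refine ⟨co_ray hGb' htt b3 b4 (hs.trans (le_abs_self s)), co_ray hGb' htt b3 b4 ?_⟩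
      rw [abs_neg]
      exact hs.trans (le_abs_self s))
    refine le_trans ?_ h7
    have h8 : √((c2 - |w.im|) / c2) ≤ √((c2 - c1) / c2) := by
      apply Real.sqrt_le_sqrt
      apply div_le_div_of_nonneg_right _ hc2.le
      linarith
    linarith
  intro c hc
  have hc0 : 0 < c := hc.1
  set e : ℝ → ℝ := fun x => 6 * √(|x - c| / c) with he
  have hec : Continuous e := by
    simp only [he]
    exact continuous_const.mul
      (((continuous_abs.comp (continuous_id.sub continuous_const)).div_const c).sqrt)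
  have he0 : e c = 0 := by simp [he]
  have helim : Tendsto e (𝓝[Ioc 0 c'] c) (𝓝 0) := by
    have := (hec.tendsto c).mono_left (nhdsWithin_le_nhds (s := Ioc 0 c'))
    rwa [he0] at this
  have hlow : Tendsto (fun x => (1 - e x) * F c) (𝓝[Ioc 0 c'] c) (𝓝 (F c)) := by
    have : Tendsto (fun x => (1 - e x) * F c) (𝓝[Ioc 0 c'] c) (𝓝 ((1 - 0) * F c)) :=
      (tendsto_const_nhds.sub helim).mul tendsto_const_nhds
    rwa [sub_zero, one_mul] at this
  have hupp : Tendsto (fun x => F c / (1 - e x)) (𝓝[Ioc 0 c'] c) (𝓝 (F c)) := by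
    have : Tendsto (fun x => F c / (1 - e x)) (𝓝[Ioc 0 c'] c) (𝓝 (F c / (1 - 0))) :=
      tendsto_const_nhds.div (tendsto_const_nhds.sub helim) (by norm_num)
    rwa [sub_zero, div_one] at this
  have hev : ∀ᶠ x in 𝓝[Ioc 0 c'] c, e x < 1 := helim.eventually_lt_const one_pos
  have hFc := hpos c hc0
  refine tendsto_of_tendsto_of_tendsto_of_le_of_le' hlow hupp ?_ ?_
  · filter_upwards [hev, self_mem_nhdsWithin] with x hx hxI
    rcases le_total x c with h | h
    · have h1 := hmono x c hxI.1 h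
      have h2 : 0 ≤ e x := by simp only [he]; positivity
      nlinarith
    · have h3 : 6 * √((x - c) / x) ≤ e x := by
        simp only [he]
        rw [abs_of_nonneg (by linarith)]
        have : (x - c) / x ≤ (x - c) / c := div_le_div_of_nonneg_left (by linarith) hc0 h
        have := Real.sqrt_le_sqrt this
        linarith
      have h4 := hcmp c x hc0 h hxI.2 (by linarith)
      refine le_trans ?_ h4
      apply mul_le_mul_of_nonneg_right _ hFc.le
      linarith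
  · filter_upwards [hev, self_mem_nhdsWithin] with x hx hxI
    rw [le_div_iff₀ (by linarith)]
    have hFx := hpos x hxI.1
    rcases le_total x c with h | h
    · have h3 : 6 * √((c - x) / c) = e x := by
        simp only [he]
        rw [abs_sub_comm, abs_of_nonneg (by linarith)]
      have h4 := hcmp x c hxI.1 h hc.2 (by rw [h3]; exact hx)
      rw [h3] at h4
      linarith
    · have h1 := hmono c x hc0 h
      have h2 : 0 ≤ e x := by simp only [he]; positivity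
      nlinarith

end Pool.Agent.Q75.HM
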