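import Mathlib

set_option autoImplicit false

/-!
# Project HM (helper75): harmonic measures of cross-sections, definitions

Row MP_41df0b_an, frozen statement S04470 (disproof).
-/

namespace Pool.Agent.Q75.HM

open Complex Set Metric Filter Topology

open scoped Real ComplexConjugate

/-- the left half-strip `{Re z < s, |Im z| < c}` -/
def HS (s c : ℝ) : Set ℂ := {z | z.re < s ∧ |z.im| < c}

/-- open sets which with a point contain all points further left and nearer to the real axis -/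
def LD (G : Set ℂ) : Prop :=
  IsOpen G ∧ ∀ z ∈ G, ∀ w : ℂ, w.re ≤ z.re → |w.im| ≤ |z.im| → w ∈ G

/-- reflection in the line `Re z = m` -/
def rf (m : ℝ) (z : ℂ) : ℂ := ⟨2 * m - z.re, z.im⟩

/-- the doubled domain: the part of `G` left of the line `Re z = m`, its mirror image, and the
open part of the line -/
def Wd (G : Set ℂ) (m : ℝ) : Set ℂ :=
  {z | z.re < m ∧ z ∈ G} ∪ {z | m < z.re ∧ rf m z ∈ G} ∪ {z | ∃ y, |z.im| < y ∧ HS m y ⊆ G}

/-- `Ω` is a simply connected domain, not the plane -/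
def Dm (Ω : Set ℂ) : Prop := IsOpen Ω ∧ IsSimplyConnected Ω ∧ Ω ≠ univ

/-- `φ` is a Riemann map of `Ω` onto the unit disc with `φ p = 0` -/
def RM (Ω : Set ℂ) (p : ℂ) (φ : ℂ → ℂ) : Prop :=
  DifferentiableOn ℂ φ Ω ∧ BijOn φ Ω (ball 0 1) ∧ (∀ z ∈ Ω, deriv φ z ≠ 0) ∧ φ p = 0

/-- the extremal quantity: the largest value of `|f z / (z - p)|` (of `|f' p|` if `z = p`) among
the holomorphic maps `f` of `Ω` to the unit disc with `f p = 0`.  For a Riemann map `φ` it is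
`|φ z / (z - p)|`, so `- log (qn Ω p z) = g(z, p) + log |z - p|` with the Green function `g`. -/
noncomputable def qn (Ω : Set ℂ) (p z : ℂ) : ℝ :=
  sSup {x : ℝ | ∃ f : ℂ → ℂ, DifferentiableOn ℂ f Ω ∧ MapsTo f Ω (ball 0 1) ∧ f p = 0 ∧
    x = ‖dslope f p z‖}

/-- the Perron class of the frozen statement (values at `0`) -/
def PS (C : Set ℂ) (t : ℝ) : Set ℝ :=
  {x : ℝ | ∃ u : ℂ → ℝ,
          LowerSemicontinuousOn u C ∧
          (∀ z ∈ C, 0 ≤ u z ∧ u z ≤ 1) ∧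
          (∀ a : ℂ, ∀ r : ℝ, 0 < r → Metric.closedBall a r ⊆ C →
              (∫ θ in (0 : ℝ)..(2 * Real.pi), u (circleMap a r θ)) ≤ 2 * Real.pi * u a) ∧
          (∀ ζ ∈ frontier C ∩ {z : ℂ | z.re = t}, ∀ ε : ℝ, 0 < ε →
              ∀ᶠ z in nhdsWithin ζ C, 1 - ε < u z) ∧
          u 0 = x}

/-- the harmonic measure of the diameter in the left half of the unit disc -/
noncomputable def U0 (ζ : ℂ) : ℝ :=
  1 - 2 / π * Real.arctan (-(2 * ζ.re) / (1 - ‖ζ‖ ^ 2))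

/-- the left parts of the domains -/
def HB (H : Set ℂ) (c0 M : ℝ) : Prop :=
  LD H ∧ (∀ z ∈ H, z.re < 0 ∧ |z.im| < M) ∧ 0 < c0 ∧ HS 0 c0 ⊆ H ∧
    ∀ z ∈ Wd H 0, z.re = 0 → |z.im| < c0

/-- the star property of the left part (used in the first step) -/
def StarP (H : Set ℂ) (c0 C0 : ℝ) : Prop :=
  0 ≤ C0 ∧ ∀ τ : ℝ, 0 < τ → C0 * τ < 1 → ∀ z ∈ Wd H 0,
    ((1 - C0 * τ : ℝ) : ℂ) * z + (τ : ℂ) ∈ Wd (H ∪ HS τ c0) τ

/-- the target function -/
noncomputable def Qf (q0 k1 k2 t : ℝ) : ℝ := q0 * Real.exp (k1 * t + k2 * t ^ 2)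

/-- the discrete domains -/
def Gd (H : Set ℂ) (τ : ℝ) (c : ℕ → ℝ) (k : ℕ) : Set ℂ :=
  H ∪ ⋃ j ∈ Finset.Icc 1 k, HS ((j : ℝ) * τ) (c j)

/-- the domain with left part `H` and heights `h` on `(0, b]` -/
def GH (H : Set ℂ) (b : ℝ) (h : ℝ → ℝ) : Set ℂ :=
  H ∪ {z | ∃ s, 0 < s ∧ s ≤ b ∧ z ∈ HS s (h s)}

end Pool.Agent.Q75.HM
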