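import Pool.Agent.Q75.HM.Stm

set_option autoImplicit false

/-! # Project HM, lemma GR (greedy construction), helper75 -/

namespace Pool.Agent.Q75.HM

open Complex Set Metric Filter Topology

open scoped Real ComplexConjugate

theorem gd_zero (H : Set ℂ) (τ : ℝ) (c : ℕ → ℝ) : Gd H τ c 0 = H := by
  simp [Gd]

theorem gd_succ (H : Set ℂ) (τ : ℝ) (c : ℕ → ℝ) (k : ℕ) :
    Gd H τ c (k + 1) = Gd H τ c k ∪ HS (((k + 1 : ℕ) : ℝ) * τ) (c (k + 1)) := by
  ext z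
  simp only [Gd, mem_union, mem_iUnion, Finset.mem_Icc, exists_prop]
  constructor
  · rintro (h | ⟨j, ⟨h1, h2⟩, h3⟩)
    · exact Or.inl (Or.inl h)
    · rcases Nat.lt_or_ge j (k + 1) with h4 | h4
      · exact Or.inl (Or.inr ⟨j, ⟨h1, Nat.lt_succ_iff.1 h4⟩, h3⟩)
      · have h5 : j = k + 1 := le_antisymm h2 h4
        subst h5
        exact Or.inr h3
  · rintro ((h | ⟨j, ⟨h1, h2⟩, h3⟩) | h)
    · exact Or.inl h
    · exact Or.inr ⟨j, ⟨h1, Nat.le_succ_of_le h2⟩, h3⟩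
    · exact Or.inr ⟨k + 1, ⟨by omega, le_rfl⟩, h⟩

theorem gd_congr {H : Set ℂ} {τ : ℝ} {c c' : ℕ → ℝ} {n : ℕ} (h : ∀ k ≤ n, c' k = c k) :
    ∀ k ≤ n, Gd H τ c' k = Gd H τ c k := by
  intro k
  induction k with
  | zero => intro _; rw [gd_zero, gd_zero]
  | succ k ih =>
    intro hk
    rw [gd_succ, gd_succ, ih (by omega), h (k + 1) hk]

theorem ld_hs (s c : ℝ) : LD (HS s c) := by
  refine ⟨?_, ?_⟩
  · exact (isOpen_lt Complex.continuous_re continuous_const).inter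
      (isOpen_lt (continuous_abs.comp Complex.continuous_im) continuous_const)
  · rintro z ⟨h1, h2⟩ w h3 h4
    exact ⟨lt_of_le_of_lt h3 h1, lt_of_le_of_lt h4 h2⟩

theorem ld_union {A B : Set ℂ} (hA : LD A) (hB : LD B) : LD (A ∪ B) := by
  refine ⟨hA.1.union hB.1, ?_⟩
  rintro z (h | h) w h3 h4
  · exact Or.inl (hA.2 z h w h3 h4)
  · exact Or.inr (hB.2 z h w h3 h4)

theorem gd_ld {H : Set ℂ} (hH : LD H) (τ : ℝ) (c : ℕ → ℝ) (k : ℕ) : LD (Gd H τ c k) := by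
  induction k with
  | zero => rw [gd_zero]; exact hH
  | succ k ih => rw [gd_succ]; exact ld_union ih (ld_hs _ _)

theorem gd_bd {H : Set ℂ} {c0 M τ : ℝ} {c : ℕ → ℝ} (hH : HB H c0 M) (hτ : 0 < τ)
    (hc0 : c 0 = c0) (hc : Antitone c) (k : ℕ) :
    ∀ z ∈ Gd H τ c k, z.re < (k : ℝ) * τ ∧ |z.im| < max M c0 := by
  induction k with
  | zero =>
    rw [gd_zero]
    intro z hz
    obtain ⟨h1, h2⟩ := hH.2.1 z hz
    exact ⟨by simpa using h1, lt_of_lt_of_le h2 (le_max_left _ _)⟩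
  | succ k ih =>
    rw [gd_succ]
    rintro z (hz | ⟨h1, h2⟩)
    · obtain ⟨h1, h2⟩ := ih z hz
      refine ⟨h1.trans ?_, h2⟩
      push_cast
      nlinarith
    · refine ⟨h1, lt_of_lt_of_le h2 ((?_ : c (k + 1) ≤ c0).trans (le_max_right _ _))⟩
      rw [← hc0]
      exact hc (Nat.zero_le _)

theorem gd_hs {H : Set ℂ} {c0 M τ : ℝ} {c : ℕ → ℝ} (hH : HB H c0 M) (hc0 : c 0 = c0) (k : ℕ) :
    HS ((k : ℝ) * τ) (c k) ⊆ Gd H τ c k := by
  cases k with
  | zero =>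
    rw [gd_zero, hc0]
    simpa using hH.2.2.2.1
  | succ k =>
    rw [gd_succ]
    exact subset_union_right

/-- one step -/
theorem gr_step (hFK : S_FK) (hLO : S_LO) (hCO : S_CO) (hWD : S_WD)
    (H : Set ℂ) (c0 M q0 k1 k2 b τ : ℝ) (hH : HB H c0 M) (hq0 : 0 < q0)
    (hq : qn (Wd H 0) 0 0 = q0) (hk2 : 0 ≤ k2) (hτ : 0 < τ)
    (hb1 : b ≤ 1 / (8 * q0) / 16) (hb2 : b ≤ 1 / (4 * q0))
    (hQ : ∀ t : ℝ, 0 ≤ t → t ≤ b → Qf q0 k1 k2 t ≤ 2 * q0)
    (hst : qn (Wd (H ∪ HS τ c0) τ) τ 0 ≤ q0 * Real.exp (k1 * τ))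
    (hnum : ∀ t τ : ℝ, 0 < τ → τ ≤ t → t + τ ≤ b →
      (Qf q0 k1 k2 t ^ 2 + 1152 * τ ^ 2 / (1 / (8 * q0)) ^ 4) *
        ((Qf q0 k1 k2 t + 48 * τ / (1 / (8 * q0)) ^ 2) / Qf q0 k1 k2 (t - τ)) ^
          (4 * τ / (1 / (8 * q0) - 2 * τ)) ≤
      Qf q0 k1 k2 (t + τ) * Qf q0 k1 k2 (t - τ))
    (n : ℕ) (hn : ((n + 1 : ℕ) : ℝ) * τ ≤ b) (c : ℕ → ℝ) (hc0 : c 0 = c0) (hc : Antitone c)
    (hδc : ∀ k, 1 / (8 * q0) ≤ c k)
    (hval : ∀ k : ℕ, 1 ≤ k → k ≤ n →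
        qn (Wd (Gd H τ c k) ((k : ℝ) * τ)) (((k : ℝ) * τ : ℝ) : ℂ) 0 = Qf q0 k1 k2 ((k : ℝ) * τ)) :
    ∃ x, 1 / (8 * q0) ≤ x ∧ x ≤ c n ∧
      qn (Wd (Gd H τ c n ∪ HS (((n + 1 : ℕ) : ℝ) * τ) x) (((n + 1 : ℕ) : ℝ) * τ))
        ((((n + 1 : ℕ) : ℝ) * τ : ℝ) : ℂ) 0 = Qf q0 k1 k2 (((n + 1 : ℕ) : ℝ) * τ) := by
  have hδ : 0 < 1 / (8 * q0) := by positivity
  set δ : ℝ := 1 / (8 * q0) with hδdef
  set T : ℝ := ((n + 1 : ℕ) : ℝ) * τ with hT
  have hT' : T = (n : ℝ) * τ + τ := by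
    rw [hT]
    push_cast
    ring
  have hnτ : 0 ≤ (n : ℝ) * τ := by positivity
  have hTpos : 0 < T := by linarith
  have hQpos : ∀ s, 0 < Qf q0 k1 k2 s := fun s => by unfold Qf; positivity
  have hQ0 : Qf q0 k1 k2 0 = q0 := by simp [Qf]
  have hval0 : ∀ k : ℕ, k ≤ n →
      qn (Wd (Gd H τ c k) ((k : ℝ) * τ)) (((k : ℝ) * τ : ℝ) : ℂ) 0 =
        Qf q0 k1 k2 ((k : ℝ) * τ) := by
    intro k hk
    rcases Nat.eq_zero_or_pos k with h | h
    · subst h
      rw [gd_zero]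
      simp only [Nat.cast_zero, zero_mul, Complex.ofReal_zero]
      rw [hq, hQ0]
    · exact hval k h hk
  set F : ℝ → ℝ := fun x => qn (Wd (Gd H τ c n ∪ HS T x) T) (T : ℂ) 0 with hF
  have hcont : ContinuousOn F (Icc δ (c n)) := by
    refine (hCO (Gd H τ c n) ((n : ℝ) * τ) T (c n) (max M c0) (gd_ld hH.1 τ c n)
      (gd_bd hH hτ hc0 hc n) (by linarith) hTpos.le (lt_of_lt_of_le hδ (hδc n))
      (gd_hs hH hc0 n)).mono ?_
    intro x hx
    exact ⟨lt_of_lt_of_le hδ hx.1, hx.2⟩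
  have hhi : Qf q0 k1 k2 T ≤ F δ := by
    have hΩ := hWD (Gd H τ c n ∪ HS T δ) T δ (max (max M c0) δ)
      (ld_union (gd_ld hH.1 τ c n) (ld_hs _ _)) hδ subset_union_right (by
        rintro z (hz | hz)
        · exact lt_of_lt_of_le (gd_bd hH hτ hc0 hc n z hz).2 (le_max_left _ _)
        · exact lt_of_lt_of_le hz.2 (le_max_right _ _))
    have h1 := hLO (Wd (Gd H τ c n ∪ HS T δ) T) T δ hΩ.1
      (hΩ.2.1 _ (by simpa using hδ)) (hΩ.2.1 _ (by simpa using hδ)) hTpos.le hδ (by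
        intro z hz hzT
        rcases hz with (⟨h2, _⟩ | ⟨h2, _⟩) | ⟨y, hy, hy2⟩
        · exact absurd hzT h2.ne
        · exact absurd hzT h2.ne'
        · have h3 : (⟨(n : ℝ) * τ + τ / 2, z.im⟩ : ℂ) ∈ Gd H τ c n ∪ HS T δ := by
            apply hy2
            refine ⟨?_, hy⟩
            change (n : ℝ) * τ + τ / 2 < T
            linarith
          rcases h3 with h3 | h3
          · have h4 := (gd_bd hH hτ hc0 hc n _ h3).1
            change (n : ℝ) * τ + τ / 2 < (n : ℝ) * τ at h4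
            linarith
          · exact h3.2)
    refine (hQ T hTpos.le hn).trans (le_trans ?_ h1)
    have h2 : 2 * δ + T ≤ 1 / (2 * q0) := by
      have h3 : T ≤ 1 / (4 * q0) := hn.trans hb2
      have h4 : 2 * δ = 1 / (4 * q0) := by
        rw [hδdef]
        field_simp
        norm_num
      have h5 : 1 / (2 * q0) = 1 / (4 * q0) + 1 / (4 * q0) := by
        field_simp
        norm_num
      linarith
    calc 2 * q0 = 1 / (1 / (2 * q0)) := by rw [one_div_one_div]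
      _ ≤ 1 / (2 * δ + T) := one_div_le_one_div_of_le (by positivity) h2
  have hlo : F (c n) ≤ Qf q0 k1 k2 T := by
    rcases Nat.eq_zero_or_pos n with h | h
    · subst h
      have hT1 : T = τ := by rw [hT']; simp
      have h1 : F (c 0) = qn (Wd (H ∪ HS τ c0) τ) τ 0 := by
        simp only [hF]
        rw [gd_zero, hc0, hT1]
      rw [h1, hT1]
      refine hst.trans ?_
      unfold Qf
      apply mul_le_mul_of_nonneg_left _ hq0.le
      apply Real.exp_le_exp.2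
      have : 0 ≤ k2 * τ ^ 2 := by positivity
      linarith
    · obtain ⟨m, rfl⟩ : ∃ m, n = m + 1 := ⟨n - 1, by omega⟩
      set t : ℝ := ((m + 1 : ℕ) : ℝ) * τ with ht
      have htm : t - τ = (m : ℝ) * τ := by
        rw [ht]
        push_cast
        ring
      have hmτ : 0 ≤ (m : ℝ) * τ := by positivity
      have hTt : T = t + τ := hT'
      have hτb : τ ≤ b := by linarith
      have h1 := hFK (Gd H τ c m) t τ (c (m + 1)) δ (max M c0) (gd_ld hH.1 τ c m)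
        (by rw [htm]; exact gd_bd hH hτ hc0 hc m) hτ (by linarith) hδ (hδc _)
        (by
          rw [htm]
          refine Set.Subset.trans ?_ (gd_hs hH hc0 m)
          intro z hz
          exact ⟨hz.1, lt_of_lt_of_le hz.2 (hc (Nat.le_succ m))⟩)
        (by linarith) (by linarith)
      have h2 : Gd H τ c m ∪ HS t (c (m + 1)) = Gd H τ c (m + 1) := (gd_succ H τ c m).symm
      rw [h2] at h1
      have h3 : qn (Wd (Gd H τ c (m + 1)) t) (t : ℂ) 0 = Qf q0 k1 k2 t := hval0 (m + 1) le_rfl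
      have h4 : qn (Wd (Gd H τ c m) (t - τ)) ((t - τ : ℝ) : ℂ) 0 = Qf q0 k1 k2 (t - τ) := by
        rw [htm]
        exact hval0 m (Nat.le_succ m)
      rw [h3, h4] at h1
      have h5 := hnum t τ hτ (by linarith) (by linarith)
      have h6 := h1.trans h5
      have h7 := le_of_mul_le_mul_right h6 (hQpos _)
      have h8 : F (c (m + 1)) = qn (Wd (Gd H τ c (m + 1) ∪ HS (t + τ) (c (m + 1))) (t + τ))
          ((t + τ : ℝ) : ℂ) 0 := by
        simp only [hF]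
        rw [hTt]
      rw [h8, hTt]
      exact h7
  obtain ⟨x, hx1, hx2⟩ := intermediate_value_Icc' (hδc n) hcont ⟨hlo, hhi⟩
  exact ⟨x, hx1.1, hx1.2, hx2⟩

theorem t_GR (hFK : S_FK) (hLO : S_LO) (hCO : S_CO) (hWD : S_WD) (_hQB : S_QB) : S_GR := by
  intro H c0 M q0 k1 k2 b τ n hH hq0 hq hk1 hk2 hτ hnb hb1 hb2 hQ hst hnum
  have hδc0 : 1 / (8 * q0) ≤ c0 := by
    have hM : ∀ z ∈ H, |z.im| < M := fun z hz => (hH.2.1 z hz).2
    have hΩ := hWD H 0 c0 M hH.1 hH.2.2.1 hH.2.2.2.1 hM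
    have h1 := hLO (Wd H 0) 0 c0 hΩ.1
      (hΩ.2.1 _ (by simpa using hH.2.2.1)) (hΩ.2.1 _ (by simpa using hH.2.2.1)) le_rfl hH.2.2.1
      hH.2.2.2.2
    rw [Complex.ofReal_zero, hq, add_zero] at h1
    have hc := hH.2.2.1
    rw [div_le_iff₀ (by positivity)] at h1 ⊢
    nlinarith
  induction n with
  | zero =>
    refine ⟨fun _ => c0, rfl, fun _ _ _ => le_rfl, fun _ => hδc0, ?_⟩
    intro k h1 h2
    omega
  | succ n ih =>
    have hnb' : (n : ℝ) * τ ≤ b := by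
      refine le_trans ?_ hnb
      push_cast
      nlinarith
    obtain ⟨c, hc0, hc, hδc, hval⟩ := ih hnb'
    obtain ⟨x, hx1, hx2, hx3⟩ := gr_step hFK hLO hCO hWD H c0 M q0 k1 k2 b τ hH hq0 hq hk2 hτ
      hb1 hb2 hQ hst hnum n hnb c hc0 hc hδc hval
    set c' : ℕ → ℝ := fun k => if k ≤ n then c k else x with hc'
    have hcc : ∀ k ≤ n, c' k = c k := fun k hk => by simp [hc', hk]
    refine ⟨c', ?_, ?_, ?_, ?_⟩
    · rw [hcc 0 (Nat.zero_le _), hc0]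
    · intro i j hij
      simp only [hc']
      split_ifs with h1 h2 h2
      · exact hc hij
      · omega
      · exact hx2.trans (hc h2)
      · exact le_rfl
    · intro k
      simp only [hc']
      split_ifs
      · exact hδc k
      · exact hx1
    · intro k hk1' hk2'
      rcases Nat.lt_or_ge k (n + 1) with h | h
      · rw [gd_congr hcc k (Nat.lt_succ_iff.1 h)]
        exact hval k hk1' (Nat.lt_succ_iff.1 h)
      · have hk : k = n + 1 := le_antisymm hk2' h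
        subst hk
        rw [gd_succ, gd_congr hcc n le_rfl]
        have : c' (n + 1) = x := by simp [hc']
        rw [this]
        exact hx3

end Pool.Agent.Q75.HM
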