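import Pool.Agent.Q75.HM.Stm

set_option autoImplicit false

/-!
# Project HM: assembly
-/

namespace Pool.Agent.Q75.HM

open Complex Set Metric Filter Topology

open scoped Real ComplexConjugate

/-- half-strips are monotone -/
theorem HS_mono {s s' c c' : ℝ} (hs : s ≤ s') (hc : c ≤ c') : HS s c ⊆ HS s' c' := by
  intro z hz
  exact ⟨lt_of_lt_of_le hz.1 hs, lt_of_lt_of_le hz.2 hc⟩

theorem isOpen_HS (s c : ℝ) : IsOpen (HS s c) := by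
  apply IsOpen.inter
  · exact isOpen_lt Complex.continuous_re continuous_const
  · exact isOpen_lt (continuous_abs.comp Complex.continuous_im) continuous_const

theorem LD_HS (s c : ℝ) : LD (HS s c) :=
  ⟨isOpen_HS s c, fun z hz w h1 h2 => ⟨lt_of_le_of_lt h1 hz.1, lt_of_le_of_lt h2 hz.2⟩⟩

theorem LD_GH {H : Set ℂ} (hH : LD H) (b : ℝ) (h : ℝ → ℝ) : LD (GH H b h) := by
  constructor
  · apply IsOpen.union hH.1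
    have : {z : ℂ | ∃ s, 0 < s ∧ s ≤ b ∧ z ∈ HS s (h s)} =
        ⋃ s : {s : ℝ // 0 < s ∧ s ≤ b}, HS s.1 (h s.1) := by
      ext z
      simp only [mem_setOf_eq, mem_iUnion, Subtype.exists, exists_prop, and_assoc]
    rw [this]
    exact isOpen_iUnion fun s => isOpen_HS _ _
  · rintro z (hz | ⟨s, h1, h2, h3⟩) w hw1 hw2
    · exact Or.inl (hH.2 z hz w hw1 hw2)
    · exact Or.inr ⟨s, h1, h2, (LD_HS s (h s)).2 z h3 w hw1 hw2⟩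

/-- a bound for the left part -/
theorem c0_le {H : Set ℂ} {c0 M : ℝ} (hH : HB H c0 M) {z : ℂ} (hz : |z.im| < c0) :
    |z.im| < M := by
  have : (⟨-1, z.im⟩ : ℂ) ∈ H := hH.2.2.2.1 ⟨by norm_num, hz⟩
  exact (hH.2.1 _ this).2

theorem GH_im {H : Set ℂ} {c0 M b : ℝ} {h : ℝ → ℝ} (hH : HB H c0 M)
    (hh : ∀ s ∈ Ioc 0 b, h s ≤ c0) : ∀ z ∈ GH H b h, |z.im| < M := by
  rintro z (hz | ⟨s, h1, h2, h3⟩)
  · exact (hH.2.1 z hz).2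
  · exact c0_le hH (lt_of_lt_of_le h3.2 (hh s ⟨h1, h2⟩))

theorem HS_sub_GH {H : Set ℂ} {b δ : ℝ} {h : ℝ → ℝ} (hb : 0 < b)
    (hh : ∀ s ∈ Ioc 0 b, δ ≤ h s) {t : ℝ} (ht : t ≤ b) : HS t δ ⊆ GH H b h := by
  intro z hz
  exact Or.inr ⟨b, hb, le_rfl, lt_of_lt_of_le hz.1 ht, lt_of_lt_of_le hz.2 (hh b ⟨hb, le_rfl⟩)⟩

theorem Qf_cont (q0 k1 k2 : ℝ) : Continuous (Qf q0 k1 k2) := by
  unfold Qf
  fun_prop

/-- discrete functions -/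
theorem build (hGR : S_GR) (hDI : S_DI) {H : Set ℂ} {c0 M q0 k1 k2 b τ0 : ℝ}
    (hH : HB H c0 M) (hq : 0 < q0) (hqH : qn (Wd H 0) 0 0 = q0) (hk1 : 0 ≤ k1) (hk2 : 0 ≤ k2)
    (hb : 0 < b) (hb1 : b ≤ 1 / (8 * q0) / 16) (hb2 : b ≤ 1 / (4 * q0))
    (hQ : ∀ t : ℝ, 0 ≤ t → t ≤ b → Qf q0 k1 k2 t ≤ 2 * q0)
    (hτ0 : 0 < τ0) (hst : ∀ τ : ℝ, 0 < τ → τ ≤ τ0 →
      qn (Wd (H ∪ HS τ c0) τ) τ 0 ≤ q0 * Real.exp (k1 * τ))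
    (hnum : ∀ t τ : ℝ, 0 < τ → τ ≤ t → t + τ ≤ b →
      (Qf q0 k1 k2 t ^ 2 + 1152 * τ ^ 2 / (1 / (8 * q0)) ^ 4) *
        ((Qf q0 k1 k2 t + 48 * τ / (1 / (8 * q0)) ^ 2) / Qf q0 k1 k2 (t - τ)) ^
          (4 * τ / (1 / (8 * q0) - 2 * τ)) ≤
      Qf q0 k1 k2 (t + τ) * Qf q0 k1 k2 (t - τ)) :
    ∀ η : ℝ, 0 < η → ∃ g : ℝ → ℝ, AntitoneOn g (Ioc 0 b) ∧
      (∀ s ∈ Ioc 0 b, 1 / (8 * q0) ≤ g s ∧ g s ≤ c0) ∧
      ∀ t ∈ Ioc 0 b, ∃ T, t ≤ T ∧ T ≤ b ∧ T ≤ t + η ∧ g T = g t ∧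
        qn (Wd (GH H b g) T) T 0 = Qf q0 k1 k2 T := by
  intro η hη
  obtain ⟨N, hN⟩ := exists_nat_gt (b / min η τ0)
  have hm : 0 < min η τ0 := lt_min hη hτ0
  have hNpos : 0 < (N : ℝ) := lt_of_le_of_lt (by positivity) hN
  have hN1 : 1 ≤ N := by exact_mod_cast (Nat.cast_pos.1 hNpos)
  set τ : ℝ := b / N with hτdef
  have hτ : 0 < τ := by positivity
  have hτm : τ ≤ min η τ0 := by
    rw [hτdef, div_le_iff₀ hNpos]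
    rw [div_lt_iff₀ hm] at hN
    nlinarith
  have hNτ : (N : ℝ) * τ = b := by rw [hτdef]; field_simp
  obtain ⟨c, hc0, hca, hcδ, hcq⟩ := hGR H c0 M q0 k1 k2 b τ N hH hq hqH hk1 hk2 hτ hNτ.le hb1 hb2
    hQ (hst τ hτ (hτm.trans (min_le_right _ _))) hnum
  obtain ⟨g, hg1, hg2, hg3⟩ := hDI H c0 M τ N c (1 / (8 * q0)) hH hτ hN1 (by positivity) hc0 hca hcδ
  rw [hNτ] at hg1 hg2 hg3
  refine ⟨g, hg1, hg2, ?_⟩
  intro t ht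
  obtain ⟨k, hk1', hkn, htk, hkt, hgk, hW⟩ := hg3 t ht
  refine ⟨(k : ℝ) * τ, htk, ?_, ?_, hgk, ?_⟩
  · rw [← hNτ]
    exact mul_le_mul_of_nonneg_right (by exact_mod_cast hkn) hτ.le
  · have := hτm.trans (min_le_left _ _)
    linarith
  · rw [hW]
    exact hcq k hk1' hkn

/-- kernel convergence and values -/
theorem ker_eq (hK1 : S_K1) (hK2 : S_K2) {𝒰 : Ultrafilter ℕ} {W : ℕ → Set ℂ} {p : ℕ → ℝ}
    {Ω : Set ℂ} {p0 M : ℝ} {Q : ℝ → ℝ} (hQ : Continuous Q)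
    (hW : ∀ n, Dm (W n) ∧ ((p n : ℝ) : ℂ) ∈ W n ∧ (0 : ℂ) ∈ W n ∧ 0 < p n ∧
      ∀ z ∈ W n, |z.im| < M) (hΩ : Dm Ω) (hp0 : 0 < p0)
    (h1 : (p0 : ℂ) ∈ Ω) (h2 : (0 : ℂ) ∈ Ω) (hp : Tendsto p (𝒰 : Filter ℕ) (𝓝 p0))
    (hk1 : ∀ z ∈ Ω, ∃ r : ℝ, 0 < r ∧ ∀ᶠ n in (𝒰 : Filter ℕ), ball z r ⊆ W n)
    (hk2 : ∀ z : ℂ, ∀ r : ℝ, 0 < r → (∀ᶠ n in (𝒰 : Filter ℕ), ball z r ⊆ W n) → z ∈ Ω)
    (hv : ∀ n, qn (W n) (p n) 0 = Q (p n)) : qn Ω p0 0 = Q p0 := by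
  have hlim : Tendsto (fun n => Q (p n)) (𝒰 : Filter ℕ) (𝓝 (Q p0)) :=
    (hQ.tendsto p0).comp hp
  apply le_antisymm
  · apply le_of_forall_pos_le_add
    intro ε hε
    have h3 := hK2 𝒰 W p Ω p0 M hW hΩ hp0 h1 h2 hp hk2 ε hε
    have h4 : Tendsto (fun n => Q (p n) + ε) (𝒰 : Filter ℕ) (𝓝 (Q p0 + ε)) := hlim.add_const ε
    apply ge_of_tendsto h4
    filter_upwards [h3] with n hn
    rw [hv n] at hn
    exact hn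
  · apply le_of_forall_pos_le_add
    intro ε hε
    have h3 := hK1 𝒰 W p Ω p0 (fun n => ⟨(hW n).1, (hW n).2.1, (hW n).2.2.1, (hW n).2.2.2.1⟩)
      hΩ hp0 h1 h2 hp hk1 ε hε
    apply le_of_tendsto hlim
    filter_upwards [h3] with n hn
    rw [hv n] at hn
    exact hn

theorem limit_fun {g : ℕ → ℝ → ℝ} {b δ c0 : ℝ} (𝒰 : Ultrafilter ℕ)
    (hg1 : ∀ N, AntitoneOn (g N) (Ioc 0 b))
    (hg2 : ∀ N, ∀ s ∈ Ioc 0 b, δ ≤ g N s ∧ g N s ≤ c0) :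
    ∃ h : ℝ → ℝ, (∀ s ∈ Ioc 0 b, Tendsto (fun N => g N s) (𝒰 : Filter ℕ) (𝓝 (h s))) ∧
      AntitoneOn h (Ioc 0 b) ∧ ∀ s ∈ Ioc 0 b, δ ≤ h s ∧ h s ≤ c0 := by
  have key : ∀ s : ℝ, ∃ l : ℝ, s ∈ Ioc 0 b → Tendsto (fun N => g N s) (𝒰 : Filter ℕ) (𝓝 l) := by
    intro s
    by_cases hs : s ∈ Ioc 0 b
    · have hmem : Icc δ c0 ∈ (𝒰.map fun N => g N s) := by
        rw [Ultrafilter.mem_map]
        exact Filter.univ_mem' fun N => hg2 N s hs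
      obtain ⟨l, _, hl⟩ := isCompact_Icc.ultrafilter_le_nhds' (𝒰.map fun N => g N s) hmem
      exact ⟨l, fun _ => hl⟩
    · exact ⟨0, fun h => absurd h hs⟩
  choose h hh using key
  refine ⟨h, hh, ?_, ?_⟩
  · intro s hs s' hs' hss
    exact le_of_tendsto_of_tendsto (hh s' hs') (hh s hs)
      (Filter.Eventually.of_forall fun N => hg1 N hs hs' hss)
  · intro s hs
    exact ⟨ge_of_tendsto (hh s hs) (Filter.Eventually.of_forall fun N => (hg2 N s hs).1),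
      le_of_tendsto (hh s hs) (Filter.Eventually.of_forall fun N => (hg2 N s hs).2)⟩

/-- the limit domain -/
theorem limit_dom (hWD : S_WD) (hK1 : S_K1) (hK2 : S_K2) (hLA : S_LA) (hLB : S_LB) (hGO : S_GO)
    {H : Set ℂ} {c0 M b δ : ℝ} {Q : ℝ → ℝ} (hQ : Continuous Q) (hH : HB H c0 M) (hb : 0 < b)
    (hδ : 0 < δ)
    (hbuild : ∀ η : ℝ, 0 < η → ∃ g : ℝ → ℝ, AntitoneOn g (Ioc 0 b) ∧
      (∀ s ∈ Ioc 0 b, δ ≤ g s ∧ g s ≤ c0) ∧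
      ∀ t ∈ Ioc 0 b, ∃ T, t ≤ T ∧ T ≤ b ∧ T ≤ t + η ∧ g T = g t ∧
        qn (Wd (GH H b g) T) T 0 = Q T) :
    ∃ h : ℝ → ℝ, (∀ s ∈ Ioc 0 b, δ ≤ h s ∧ h s ≤ c0) ∧
      ∀ t, 0 < t → t < b → qn (Wd (GH H b h) t) t 0 = Q t := by
  have hη : ∀ N : ℕ, 0 < 1 / ((N : ℝ) + 1) := fun N => by positivity
  choose g hg1 hg2 hg3 using fun N : ℕ => hbuild (1 / ((N : ℝ) + 1)) (hη N)
  let 𝒰 : Ultrafilter ℕ := hyperfilter ℕ
  have h𝒰 : (𝒰 : Filter ℕ) ≤ atTop := Nat.hyperfilter_le_atTop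
  obtain ⟨h, hh, hanti, hbd⟩ := limit_fun 𝒰 hg1 hg2
  refine ⟨h, hbd, ?_⟩
  -- membership facts
  have hdom : ∀ (G : Set ℂ) (t : ℝ), LD G → 0 < t → HS t δ ⊆ G → (∀ z ∈ G, |z.im| < M) →
      Dm (Wd G t) ∧ (t : ℂ) ∈ Wd G t ∧ (0 : ℂ) ∈ Wd G t ∧ 0 < t ∧ ∀ z ∈ Wd G t, |z.im| < M := by
    intro G t hG ht hS hM
    obtain ⟨h1, h2, _, h4⟩ := hWD G t δ M hG hδ hS hM
    refine ⟨h1, h2 _ (by simpa using hδ), h2 _ (by simpa using hδ), ht, h4⟩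
  have hLDh : LD (GH H b h) := LD_GH hH.1 b h
  have himh : ∀ z ∈ GH H b h, |z.im| < M := GH_im hH fun s hs => (hbd s hs).2
  -- good points
  have good : ∀ t, 0 < t → t < b → (∀ ε : ℝ, 0 < ε → ∃ s, 0 < s ∧ s < t ∧ h s < h t + ε) →
      qn (Wd (GH H b h) t) t 0 = Q t := by
    intro t ht htb hgood
    have htI : t ∈ Ioc 0 b := ⟨ht, htb.le⟩
    choose T hT1 hT2 hT3 hT4 hT5 using fun N => hg3 N t htI
    have hTlim : Tendsto T (𝒰 : Filter ℕ) (𝓝 t) := by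
      have h1 : Tendsto (fun N : ℕ => t + 1 / ((N : ℝ) + 1)) atTop (𝓝 (t + 0)) :=
        tendsto_const_nhds.add tendsto_one_div_add_atTop_nhds_zero_nat
      rw [add_zero] at h1
      exact (tendsto_of_tendsto_of_tendsto_of_le_of_le tendsto_const_nhds h1 hT1 hT3).mono_left h𝒰
    obtain ⟨hk1, hk2⟩ := hLA H c0 M b δ t g h 𝒰 T hH hb hδ hg1 hg2 hh ht htb
      (fun N => ⟨hT1 N, hT2 N, hT4 N⟩) hTlim hgood
    have hΩ := hdom (GH H b h) t hLDh ht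
      (HS_sub_GH hb (fun s hs => (hbd s hs).1) htb.le) himh
    refine ker_eq hK1 hK2 (M := M) (W := fun N => Wd (GH H b (g N)) (T N)) (p := T) hQ ?_ hΩ.1 ht hΩ.2.1
      hΩ.2.2.1 hTlim hk1 hk2 hT5
    intro N
    exact hdom (GH H b (g N)) (T N) (LD_GH hH.1 b (g N)) (lt_of_lt_of_le ht (hT1 N))
      (HS_sub_GH hb (fun s hs => (hg2 N s hs).1) (hT2 N)) (GH_im hH fun s hs => (hg2 N s hs).2)
  -- all points
  intro t ht htb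
  obtain ⟨p, hp1, hp2, hp3⟩ := hGO h b t hanti ht htb.le
  have hplim : Tendsto p (𝒰 : Filter ℕ) (𝓝 t) := hp2.mono_left h𝒰
  obtain ⟨hk1, hk2⟩ := hLB (GH H b h) t p 𝒰 hLDh (fun n => (hp1 n).2) hplim
  have hΩ := hdom (GH H b h) t hLDh ht
    (HS_sub_GH hb (fun s hs => (hbd s hs).1) htb.le) himh
  refine ker_eq hK1 hK2 (M := M) (W := fun n => Wd (GH H b h) (p n)) (p := p) hQ ?_ hΩ.1 ht hΩ.2.1
    hΩ.2.2.1 hplim hk1 hk2 ?_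
  · intro n
    exact hdom (GH H b h) (p n) hLDh (hp1 n).1
      (HS_sub_GH hb (fun s hs => (hbd s hs).1) ((hp1 n).2.le.trans htb.le)) himh
  · intro n
    exact good (p n) (hp1 n).1 ((hp1 n).2.trans htb) (hp3 n)

/-- the Perron value -/
theorem perron (hPL : S_PL) (hPU : S_PU) {G : Set ℂ} {m c M : ℝ} (h1 : LD G) (h2 : 0 < c)
    (h3 : HS m c ⊆ G) (h4 : ∀ z ∈ G, |z.im| < M) (h5 : 0 < m) :
    sInf (PS {z | z ∈ G ∧ z.re < m} m) = 1 - 4 / π * Real.arctan (m * qn (Wd G m) m 0) := by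
  have hlow := hPL G m c M h1 h2 h3 h4 h5
  have hup := hPU G m c M h1 h2 h3 h4 h5
  apply le_antisymm
  · apply le_of_forall_pos_le_add
    intro ε hε
    obtain ⟨x, hx, hx2⟩ := hup ε hε
    exact (csInf_le ⟨_, fun y hy => hlow y hy⟩ hx).trans hx2
  · obtain ⟨x, hx, _⟩ := hup 1 one_pos
    exact le_csInf ⟨x, hx⟩ hlow

/-- the two domains -/
theorem two_domains (hWD : S_WD) (hK1 : S_K1) (hK2 : S_K2) (hLA : S_LA) (hLB : S_LB)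
    (hGO : S_GO) (hNU : S_NU) (hBA : S_BA) (hBB : S_BB) (hGR : S_GR) (hDI : S_DI) :
    ∃ (G1 G2 : Set ℂ) (b δ M : ℝ), 0 < b ∧ 0 < δ ∧ LD G1 ∧ LD G2 ∧ (∀ z ∈ G1, |z.im| < M) ∧
      (∀ z ∈ G2, |z.im| < M) ∧ HS b δ ⊆ G1 ∧ HS b δ ⊆ G2 ∧
      {z | z ∈ G1 ∧ z.re < b} ≠ {z | z ∈ G2 ∧ z.re < b} ∧
      ∀ t, 0 < t → t ≤ b → qn (Wd G1 t) t 0 = qn (Wd G2 t) t 0 := by
  obtain ⟨H1, H2, c1, c2, M, C1, C2, q0, hH1, hH2, hs1, hs2, hq0, hq1, hq2, hne⟩ := hBB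
  obtain ⟨a1, τ1, ha1, hτ1, hb1⟩ := hBA H1 c1 M C1 hH1 hs1
  obtain ⟨a2, τ2, ha2, hτ2, hb2⟩ := hBA H2 c2 M C2 hH2 hs2
  set δ : ℝ := 1 / (8 * q0) with hδdef
  have hδ : 0 < δ := by positivity
  set k1 : ℝ := max a1 a2 with hk1def
  have hk1 : 0 ≤ k1 := le_max_of_le_left ha1
  obtain ⟨k2, b, hk2, hb, hbB, hbδ, hQ, hnum⟩ := hNU δ q0 k1 (1 / (4 * q0)) hδ hq0 hk1
    (by positivity)
  have hstep : ∀ (H : Set ℂ) (c0 a τ0 : ℝ), a ≤ k1 → qn (Wd H 0) 0 0 = q0 →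
      (∀ τ : ℝ, 0 < τ → τ ≤ τ0 →
        qn (Wd (H ∪ HS τ c0) τ) τ 0 ≤ qn (Wd H 0) 0 0 * Real.exp (a * τ)) →
      ∀ τ : ℝ, 0 < τ → τ ≤ τ0 → qn (Wd (H ∪ HS τ c0) τ) τ 0 ≤ q0 * Real.exp (k1 * τ) := by
    intro H c0 a τ0 ha hq h τ h1 h2
    refine (h τ h1 h2).trans ?_
    rw [hq]
    apply mul_le_mul_of_nonneg_left _ hq0.le
    exact Real.exp_le_exp.2 (mul_le_mul_of_nonneg_right ha h1.le)
  have hbuild1 := build hGR hDI hH1 hq0 hq1 hk1 hk2 hb hbδ hbB hQ hτ1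
    (hstep H1 c1 a1 τ1 (le_max_left _ _) hq1 hb1) hnum
  have hbuild2 := build hGR hDI hH2 hq0 hq2 hk1 hk2 hb hbδ hbB hQ hτ2
    (hstep H2 c2 a2 τ2 (le_max_right _ _) hq2 hb2) hnum
  obtain ⟨h1, hbd1, hv1⟩ := limit_dom hWD hK1 hK2 hLA hLB hGO (Qf_cont q0 k1 k2) hH1 hb hδ hbuild1
  obtain ⟨h2, hbd2, hv2⟩ := limit_dom hWD hK1 hK2 hLA hLB hGO (Qf_cont q0 k1 k2) hH2 hb hδ hbuild2
  refine ⟨GH H1 b h1, GH H2 b h2, b / 2, δ, M, by linarith, hδ, LD_GH hH1.1 _ _, LD_GH hH2.1 _ _,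
    GH_im hH1 fun s hs => (hbd1 s hs).2, GH_im hH2 fun s hs => (hbd2 s hs).2,
    HS_sub_GH hb (fun s hs => (hbd1 s hs).1) (by linarith),
    HS_sub_GH hb (fun s hs => (hbd2 s hs).1) (by linarith), ?_, ?_⟩
  · -- different
    intro heq
    apply hne
    -- the part left of 0 determines H
    have key : ∀ (H : Set ℂ) (c0 : ℝ) (h : ℝ → ℝ), HB H c0 M → (∀ s ∈ Ioc 0 b, h s ≤ c0) →
        ∀ z : ℂ, (z ∈ H ↔ z ∈ GH H b h ∧ z.re < 0) := by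
      intro H c0 h hH hh z
      constructor
      · intro hz
        exact ⟨Or.inl hz, (hH.2.1 z hz).1⟩
      · rintro ⟨hz | ⟨s, hs1, hs2, hs3⟩, hz2⟩
        · exact hz
        · exact hH.2.2.2.1 ⟨hz2, lt_of_lt_of_le hs3.2 (hh s ⟨hs1, hs2⟩)⟩
    ext z
    rw [key H1 c1 h1 hH1 (fun s hs => (hbd1 s hs).2) z, key H2 c2 h2 hH2 (fun s hs => (hbd2 s hs).2) z]
    have hz := Set.ext_iff.1 heq z
    simp only [mem_setOf_eq] at hz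
    constructor
    · rintro ⟨h3, h4⟩
      exact ⟨(hz.1 ⟨h3, by linarith⟩).1, h4⟩
    · rintro ⟨h3, h4⟩
      exact ⟨(hz.2 ⟨h3, by linarith⟩).1, h4⟩
  · intro t ht htb
    rw [hv1 t ht (by linarith), hv2 t ht (by linarith)]

/-- the final statement -/
theorem final (hCC : S_CC) (hOZ : S_OZ) (hPL : S_PL) (hPU : S_PU)
    (hG : ∃ (G1 G2 : Set ℂ) (b δ M : ℝ), 0 < b ∧ 0 < δ ∧ LD G1 ∧ LD G2 ∧ (∀ z ∈ G1, |z.im| < M) ∧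
      (∀ z ∈ G2, |z.im| < M) ∧ HS b δ ⊆ G1 ∧ HS b δ ⊆ G2 ∧
      {z | z ∈ G1 ∧ z.re < b} ≠ {z | z ∈ G2 ∧ z.re < b} ∧
      ∀ t, 0 < t → t ≤ b → qn (Wd G1 t) t 0 = qn (Wd G2 t) t 0) :
    ¬ (∀ (adm : Set ℂ → Prop),
      (∀ G : Set ℂ, adm G ↔
        (IsOpen G ∧ IsConnected G ∧ (0 : ℂ) ∈ G ∧
          ∀ z ∈ G, segment ℝ z ((starRingEnd ℂ) z) ⊆ G)) →
    ∀ (C : Set ℂ → ℝ → Set ℂ),
      (∀ (G : Set ℂ) (t : ℝ), C G t = connectedComponentIn {z : ℂ | z ∈ G ∧ z.re < t} 0) →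
    ∀ (ω : Set ℂ → ℝ → ℝ),
      (∀ (G : Set ℂ) (t : ℝ), ω G t = sInf {x : ℝ | ∃ u : ℂ → ℝ,
          LowerSemicontinuousOn u (C G t) ∧
          (∀ z ∈ C G t, 0 ≤ u z ∧ u z ≤ 1) ∧
          (∀ a : ℂ, ∀ r : ℝ, 0 < r → Metric.closedBall a r ⊆ C G t →
              (∫ θ in (0 : ℝ)..(2 * Real.pi), u (circleMap a r θ)) ≤ 2 * Real.pi * u a) ∧
          (∀ ζ ∈ frontier (C G t) ∩ {z : ℂ | z.re = t}, ∀ ε : ℝ, 0 < ε →
              ∀ᶠ z in nhdsWithin ζ (C G t), 1 - ε < u z) ∧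
          u 0 = x}) →
    ∀ D₁ D₂ : Set ℂ, adm D₁ → adm D₂ →
      (∀ t : ℝ, 0 < t → ω D₁ t = ω D₂ t) → D₁ = D₂) := by
  obtain ⟨G1, G2, b, δ, M, hb, hδ, hL1, hL2, hM1, hM2, hS1, hS2, hne, hv⟩ := hG
  intro hall
  set C : Set ℂ → ℝ → Set ℂ := fun G t => connectedComponentIn {z : ℂ | z ∈ G ∧ z.re < t} 0 with hC
  have hmain := hall (fun G => IsOpen G ∧ IsConnected G ∧ (0 : ℂ) ∈ G ∧
          ∀ z ∈ G, segment ℝ z ((starRingEnd ℂ) z) ⊆ G) (fun G => Iff.rfl) C (fun G t => rfl)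
    (fun G t => sInf (PS (C G t) t)) (fun G t => rfl)
    {z | z ∈ G1 ∧ z.re < b} {z | z ∈ G2 ∧ z.re < b}
  apply hne
  have hLD : ∀ G : Set ℂ, LD G → LD {z | z ∈ G ∧ z.re < b} := by
    intro G hG
    refine ⟨hG.1.inter (isOpen_lt Complex.continuous_re continuous_const), ?_⟩
    rintro z ⟨h1, h2⟩ w h3 h4
    exact ⟨hG.2 z h1 w h3 h4, lt_of_le_of_lt h3 h2⟩
  have h0 : ∀ G : Set ℂ, HS b δ ⊆ G → (0 : ℂ) ∈ {z | z ∈ G ∧ z.re < b} := by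
    intro G hG
    exact ⟨hG ⟨by simpa using hb, by simpa using hδ⟩, by simpa using hb⟩
  have hadm : ∀ G : Set ℂ, LD G → HS b δ ⊆ G → (IsOpen {z | z ∈ G ∧ z.re < b} ∧
      IsConnected {z | z ∈ G ∧ z.re < b} ∧ (0 : ℂ) ∈ {z | z ∈ G ∧ z.re < b} ∧
          ∀ z ∈ {z | z ∈ G ∧ z.re < b}, segment ℝ z ((starRingEnd ℂ) z) ⊆ {z | z ∈ G ∧ z.re < b}) := by
    intro G hG hS
    obtain ⟨_, h2, h3⟩ := hCC _ (hLD G hG) (h0 G hS)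
    exact ⟨(hLD G hG).1, h2, h0 G hS, h3⟩
  have hω : ∀ G : Set ℂ, LD G → HS b δ ⊆ G → (∀ z ∈ G, |z.im| < M) → ∀ t : ℝ, 0 < t →
      sInf (PS (C {z | z ∈ G ∧ z.re < b} t) t) =
        if t ≤ b then 1 - 4 / π * Real.arctan (t * qn (Wd G t) t 0) else 0 := by
    intro G hG hS hM t ht
    have hCt : C {z | z ∈ G ∧ z.re < b} t = {z | z ∈ {z | z ∈ G ∧ z.re < b} ∧ z.re < t} :=
      (hCC _ (hLD G hG) (h0 G hS)).1 t ht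
    split_ifs with htb
    · have : {z | z ∈ {z | z ∈ G ∧ z.re < b} ∧ z.re < t} = {z | z ∈ G ∧ z.re < t} := by
        ext z
        simp only [mem_setOf_eq]
        constructor
        · rintro ⟨⟨h1, _⟩, h2⟩
          exact ⟨h1, h2⟩
        · rintro ⟨h1, h2⟩
          exact ⟨⟨h1, lt_of_lt_of_le h2 htb⟩, h2⟩
      rw [hCt, this]
      exact perron hPL hPU hG hδ ((HS_mono htb le_rfl).trans hS) hM ht
    · rw [not_le] at htb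
      have : {z | z ∈ {z | z ∈ G ∧ z.re < b} ∧ z.re < t} = {z | z ∈ G ∧ z.re < b} := by
        ext z
        simp only [mem_setOf_eq]
        constructor
        · rintro ⟨h1, _⟩
          exact h1
        · intro h1
          exact ⟨h1, h1.2.trans htb⟩
      rw [hCt, this]
      apply hOZ _ _ (h0 G hS)
      intro z hz hzt
      have h1 : z ∈ closure {z : ℂ | z ∈ G ∧ z.re < b} := frontier_subset_closure hz
      have h2 : closure {z : ℂ | z ∈ G ∧ z.re < b} ⊆ {z : ℂ | z.re ≤ b} :=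
        closure_minimal (fun w hw => le_of_lt hw.2) (isClosed_le Complex.continuous_re continuous_const)
      have h3 : z.re ≤ b := h2 h1
      linarith
  apply hmain (hadm G1 hL1 hS1) (hadm G2 hL2 hS2)
  intro t ht
  rw [hω G1 hL1 hS1 hM1 t ht, hω G2 hL2 hS2 hM2 t ht]
  split_ifs with htb
  · rw [hv t ht htb]
  · rfl

end Pool.Agent.Q75.HM
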