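import Pool.Agent.Q75.HM.Stm
import Pool.Agent.Q210.HM.PU
import Pool.Agent.Q223.HM.QB

set_option autoImplicit false

/-! # Project HM, lemma PL (lower bound for the Perron class), helper75 -/

namespace Pool.Agent.Q75.HM

open Complex Set Metric Filter Topology MeasureTheory

open scoped Real ComplexConjugate

/-- the potential of the two end points -/
noncomputable def SS (w : ℂ) : ℂ :=
  2 * Complex.log 2 - Complex.log (1 + I * w) - Complex.log (1 - I * w)

theorem ss_re_pos {w : ℂ} (hw : ‖w‖ < 1) : 0 < (1 + I * w).re ∧ 0 < (1 - I * w).re := by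
  have h1 : |w.im| < 1 := lt_of_le_of_lt (Complex.abs_im_le_norm w) hw
  rw [abs_lt] at h1
  constructor
  · simp only [add_re, one_re, mul_re, I_re, zero_mul, I_im, one_mul, zero_sub]
    linarith
  · simp only [sub_re, one_re, mul_re, I_re, zero_mul, I_im, one_mul, zero_sub]
    linarith

theorem ss_re (w : ℂ) :
    (SS w).re = 2 * Real.log 2 - Real.log ‖1 + I * w‖ - Real.log ‖1 - I * w‖ := by
  unfold SS
  simp only [sub_re, mul_re, Complex.log_re]
  have h1 : (2 : ℂ).re = 2 := rfl
  have h2 : (2 : ℂ).im = 0 := rfl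
  have h3 : ‖(2 : ℂ)‖ = 2 := by simp
  rw [h1, h2, h3]
  ring

theorem ss_le {w : ℂ} (hw : ‖w‖ < 1) : ‖1 + I * w‖ ≤ 2 ∧ ‖1 - I * w‖ ≤ 2 := by
  have h1 : ‖I * w‖ < 1 := by rw [norm_mul, norm_I, one_mul]; exact hw
  constructor
  · calc ‖1 + I * w‖ ≤ ‖(1 : ℂ)‖ + ‖I * w‖ := norm_add_le _ _
      _ ≤ 2 := by rw [norm_one]; linarith
  · calc ‖1 - I * w‖ ≤ ‖(1 : ℂ)‖ + ‖I * w‖ := norm_sub_le _ _
      _ ≤ 2 := by rw [norm_one]; linarith

theorem ss_pos {w : ℂ} (hw : ‖w‖ < 1) : 0 ≤ Real.log 2 - Real.log ‖1 + I * w‖ ∧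
    0 ≤ Real.log 2 - Real.log ‖1 - I * w‖ := by
  obtain ⟨h1, h2⟩ := ss_re_pos hw
  obtain ⟨h3, h4⟩ := ss_le hw
  have h5 : 0 < ‖1 + I * w‖ := norm_pos_iff.2 (fun h => by rw [h] at h1; simp at h1)
  have h6 : 0 < ‖1 - I * w‖ := norm_pos_iff.2 (fun h => by rw [h] at h2; simp at h2)
  exact ⟨sub_nonneg.2 (Real.log_le_log h5 h3), sub_nonneg.2 (Real.log_le_log h6 h4)⟩

theorem ss_diff : DifferentiableOn ℂ SS (ball 0 1) := by
  intro w hw
  rw [mem_ball_zero_iff] at hw
  obtain ⟨h1, h2⟩ := ss_re_pos hw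
  have d1 : DifferentiableAt ℂ (fun w : ℂ => 1 + I * w) w :=
    (differentiableAt_const _).add ((differentiableAt_const _).mul differentiableAt_id)
  have d2 : DifferentiableAt ℂ (fun w : ℂ => 1 - I * w) w :=
    (differentiableAt_const _).sub ((differentiableAt_const _).mul differentiableAt_id)
  exact (((differentiableAt_const _).sub (d1.clog (Or.inl h1))).sub
    (d2.clog (Or.inl h2))).differentiableWithinAt

/-- the potential tends to infinity at the end points -/
theorem ss_large {w : ℕ → ℂ} {ζ : ℂ} (hw : ∀ n, ‖w n‖ < 1) (hζ : ζ = I ∨ ζ = -I)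
    (hlim : Tendsto w atTop (𝓝 ζ)) (A : ℝ) : ∀ᶠ n in atTop, A ≤ (SS (w n)).re := by
  have hlog : ∀ v : ℕ → ℂ, (∀ n, v n ≠ 0) → Tendsto v atTop (𝓝 0) →
      ∀ᶠ n in atTop, A - Real.log 2 ≤ -Real.log ‖v n‖ := by
    intro v hv0 hv
    have h1 : Tendsto (fun n => ‖v n‖) atTop (𝓝[>] 0) := by
      rw [tendsto_nhdsWithin_iff]
      refine ⟨by simpa using hv.norm, Filter.Eventually.of_forall fun n => norm_pos_iff.2 (hv0 n)⟩
    have h2 := Real.tendsto_log_nhdsGT_zero.comp h1
    filter_upwards [h2.eventually_le_atBot (-(A - Real.log 2))] with n hn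
    simp only [Function.comp_apply] at hn
    linarith
  rcases hζ with h | h
  · have h1 : Tendsto (fun n => 1 + I * w n) atTop (𝓝 0) := by
      have : Tendsto (fun n => 1 + I * w n) atTop (𝓝 (1 + I * ζ)) :=
        tendsto_const_nhds.add (tendsto_const_nhds.mul hlim)
      rwa [h, I_mul_I, add_neg_cancel] at this
    filter_upwards [hlog _ (fun n h0 => by
      have := (ss_re_pos (hw n)).1
      rw [h0] at this
      simp at this) h1] with n hn
    rw [ss_re]
    have := (ss_pos (hw n)).2
    linarith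
  · have h1 : Tendsto (fun n => 1 - I * w n) atTop (𝓝 0) := by
      have : Tendsto (fun n => 1 - I * w n) atTop (𝓝 (1 - I * ζ)) :=
        tendsto_const_nhds.sub (tendsto_const_nhds.mul hlim)
      rwa [h, mul_neg, I_mul_I, neg_neg, sub_self] at this
    filter_upwards [hlog _ (fun n h0 => by
      have := (ss_re_pos (hw n)).2
      rw [h0] at this
      simp at this) h1] with n hn
    rw [ss_re]
    have := (ss_pos (hw n)).1
    linarith

theorem U0_le_one {w : ℂ} (h1 : ‖w‖ < 1) (h2 : w.re ≤ 0) : U0 w ≤ 1 := by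
  unfold U0
  have h3 : 0 ≤ -(2 * w.re) / (1 - ‖w‖ ^ 2) := by
    apply div_nonneg
    · linarith
    · have := norm_nonneg w
      nlinarith
  have h4 : 0 ≤ Real.arctan (-(2 * w.re) / (1 - ‖w‖ ^ 2)) := by
    rw [← Real.arctan_zero]
    exact Real.arctan_mono h3
  have h5 : 0 ≤ 2 / π * Real.arctan (-(2 * w.re) / (1 - ‖w‖ ^ 2)) := by positivity
  linarith

/-- `U0` tends to zero at the left boundary of the half disc -/
theorem U0_small {w : ℕ → ℂ} {ζ : ℂ} (hw : ∀ n, ‖w n‖ < 1) (hζ : ‖ζ‖ = 1) (hζ2 : ζ.re < 0)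
    (hlim : Tendsto w atTop (𝓝 ζ)) {ε : ℝ} (hε : 0 < ε) : ∀ᶠ n in atTop, U0 (w n) < ε := by
  have h1 : Tendsto (fun n => 1 - ‖w n‖ ^ 2) atTop (𝓝[>] 0) := by
    rw [tendsto_nhdsWithin_iff]
    constructor
    · have : Tendsto (fun n => 1 - ‖w n‖ ^ 2) atTop (𝓝 (1 - ‖ζ‖ ^ 2)) :=
        tendsto_const_nhds.sub (hlim.norm.pow 2)
      rwa [hζ, one_pow, sub_self] at this
    · refine Filter.Eventually.of_forall fun n => ?_
      have h3 := norm_nonneg (w n)
      have h4 := hw n
      change 0 < 1 - ‖w n‖ ^ 2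
      nlinarith
  have h2 : Tendsto (fun n => -(2 * (w n).re)) atTop (𝓝 (-(2 * ζ.re))) :=
    (tendsto_const_nhds.mul ((Complex.continuous_re.tendsto ζ).comp hlim)).neg
  have h3 : Tendsto (fun n => -(2 * (w n).re) / (1 - ‖w n‖ ^ 2)) atTop atTop := by
    have h4 : Tendsto (fun n => -(2 * (w n).re) * (1 - ‖w n‖ ^ 2)⁻¹) atTop atTop :=
      h2.pos_mul_atTop (by linarith) (tendsto_inv_nhdsGT_zero.comp h1)
    simpa only [div_eq_mul_inv] using h4
  have h4 : Tendsto (fun n => U0 (w n)) atTop (𝓝 0) := by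
    have h5 : Tendsto (fun n => Real.arctan (-(2 * (w n).re) / (1 - ‖w n‖ ^ 2))) atTop
        (𝓝 (π / 2)) := (tendsto_nhds_of_tendsto_nhdsWithin Real.tendsto_arctan_atTop).comp h3
    have h6 : Tendsto (fun n => 1 - 2 / π * Real.arctan (-(2 * (w n).re) / (1 - ‖w n‖ ^ 2))) atTop
        (𝓝 (1 - 2 / π * (π / 2))) := tendsto_const_nhds.sub (tendsto_const_nhds.mul h5)
    have h7 : 1 - 2 / π * (π / 2) = 0 := by
      have := Real.pi_pos
      field_simp
      norm_num
    rw [h7] at h6
    exact h6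
  exact h4.eventually_lt_const hε

/-- the super mean property of the sum -/
theorem super_add {C : Set ℂ} {u : ℂ → ℝ} {Ψ : ℂ → ℂ} (hΨ : DifferentiableOn ℂ Ψ C)
    (hu : LowerSemicontinuousOn u C) (hu01 : ∀ z ∈ C, 0 ≤ u z ∧ u z ≤ 1)
    (hsup : ∀ a : ℂ, ∀ r : ℝ, 0 < r → Metric.closedBall a r ⊆ C →
              (∫ θ in (0 : ℝ)..(2 * Real.pi), u (circleMap a r θ)) ≤ 2 * Real.pi * u a)
    {a : ℂ} {r : ℝ} (hr : 0 < r) (hsub : closedBall a r ⊆ C) :
    (∫ θ in (0 : ℝ)..(2 * π), (u (circleMap a r θ) + (Ψ (circleMap a r θ)).re)) ≤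
      2 * π * (u a + (Ψ a).re) := by
  obtain ⟨h1, hc⟩ := Pool.Agent.Q210.HM.mean_re hΨ hr hsub
  have hmem : ∀ θ : ℝ, circleMap a r θ ∈ C := fun θ => hsub (circleMap_mem_closedBall a hr.le θ)
  have hlsc : LowerSemicontinuous fun θ : ℝ => u (circleMap a r θ) := by
    intro θ y hy
    have h2 := hu (circleMap a r θ) (hmem θ) y hy
    have h3 : Tendsto (fun θ => circleMap a r θ) (𝓝 θ) (𝓝[C] (circleMap a r θ)) := by
      rw [tendsto_nhdsWithin_iff]
      exact ⟨(continuous_circleMap a r).tendsto θ, Filter.Eventually.of_forall hmem⟩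
    exact h3.eventually h2
  have hmeas : Measurable fun θ : ℝ => u (circleMap a r θ) := hlsc.measurable
  have hint : IntervalIntegrable (fun θ : ℝ => u (circleMap a r θ)) volume 0 (2 * π) := by
    rw [intervalIntegrable_iff]
    refine Measure.integrableOn_of_bounded (M := 1) (by
      rw [uIoc_of_le (by positivity)]
      exact measure_Ioc_lt_top.ne) hmeas.aestronglyMeasurable ?_
    refine Filter.Eventually.of_forall fun θ => ?_
    obtain ⟨h2, h3⟩ := hu01 _ (hmem θ)
    rw [Real.norm_of_nonneg h2]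
    exact h3
  rw [intervalIntegral.integral_add hint (hc.intervalIntegrable _ _), h1, mul_add]
  exact add_le_add (hsup a r hr hsub) le_rfl

/-- **PL.** -/
theorem t_PL (hCC : S_CC) (hWD : S_WD) (hQB : S_QB) (hSY : S_SY) (hMP : S_MP) (hUZ : S_UZ) :
    S_PL := by
  intro G m c M hG hc hcG hM hm x hx
  obtain ⟨u, hlsc, hu01, hsup, hbd, rfl⟩ := hx
  obtain ⟨hDm, hstrip, hsym, -⟩ := hWD G m c M hG hc hcG hM
  obtain ⟨φ, hφ, hφc, hφr, hφn⟩ := hSY G m c M hG hc hcG hM
  obtain ⟨⟨F, hFd, hF⟩, hU⟩ := hUZ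
  set C : Set ℂ := {z | z ∈ G ∧ z.re < m} with hC
  have hCW : C ⊆ Wd G m := fun z hz => Or.inl (Or.inl ⟨hz.2, hz.1⟩)
  have hWC : ∀ z ∈ Wd G m, z.re < m → z ∈ C := by
    rintro z ((⟨h1, h2⟩ | ⟨h1, h2⟩) | ⟨y, hy, hy2⟩) hz
    · exact ⟨h2, hz⟩
    · exact absurd hz (not_lt.2 h1.le)
    · exact ⟨hy2 ⟨hz, hy⟩, hz⟩
  have hmaps : MapsTo φ (Wd G m) (ball 0 1) := hφ.2.1.mapsTo
  have hn1 : ∀ z ∈ Wd G m, ‖φ z‖ < 1 := fun z hz => by
    have := hmaps hz
    rwa [mem_ball_zero_iff] at this
  have h0C : (0 : ℂ) ∈ C := ⟨hcG ⟨by simpa using hm, by simpa using hc⟩, by simpa using hm⟩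
  have h0W : (0 : ℂ) ∈ Wd G m := hCW h0C
  have hmW : (m : ℂ) ∈ Wd G m := hstrip _ (by simpa using hc)
  have hCo : IsOpen C := hG.1.inter (isOpen_lt Complex.continuous_re continuous_const)
  have hCp : IsPreconnected C := by
    have h1 := (hCC G hG h0C.1).1 m hm
    rw [hC, ← h1]
    exact isPreconnected_connectedComponentIn
  obtain ⟨g, g1, g2, g3, g4, -⟩ := Pool.Agent.Q223.HM.inv_of hDm.1 hmW hφ
  -- sign of the real part
  have hre0 : ∀ z ∈ Wd G m, z.re = m → (φ z).re = 0 := by
    intro z hz hzm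
    have h1 := hφr z hz
    have h2 : rf m z = z := by
      unfold rf
      refine Complex.ext ?_ rfl
      simp only
      linarith
    rw [h2] at h1
    have h3 := congrArg Complex.re h1
    rw [Complex.neg_re, Complex.conj_re] at h3
    linarith
  have hleft : ∀ z ∈ Wd G m, (φ z).re < 0 → z.re < m := by
    intro z hz hneg
    by_contra hge
    rw [not_lt] at hge
    rcases hge.eq_or_lt with h | h
    · have := hre0 z hz h.symm
      linarith
    · have h1 := hφn (rf m z) (hsym z hz).2 (by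
        unfold rf
        simp only
        linarith)
      rw [hφr z hz, Complex.neg_re, Complex.conj_re] at h1
      linarith
  have hright : ∀ z ∈ Wd G m, (φ z).re = 0 → z.re = m := by
    intro z hz h0
    by_contra hne
    rcases lt_or_gt_of_ne hne with h | h
    · have := hφn z hz h
      linarith
    · have h1 := hφn (rf m z) (hsym z hz).2 (by
        unfold rf
        simp only
        linarith)
      rw [hφr z hz, Complex.neg_re, Complex.conj_re] at h1
      linarith
  -- the main estimate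
  have hmain : ∀ η : ℝ, 0 < η → U0 (φ 0) ≤ u 0 + η * (SS (φ 0)).re := by
    intro η hη
    set Ψ : ℂ → ℂ := fun z => -F (φ z) + (η : ℂ) * SS (φ z) with hΨ
    have hΨd : DifferentiableOn ℂ Ψ C := by
      refine DifferentiableOn.add ?_ (DifferentiableOn.const_mul ?_ _)
      · exact (hFd.comp (hφ.1.mono hCW) fun z hz => hmaps (hCW hz)).neg
      · exact ss_diff.comp (hφ.1.mono hCW) fun z hz => hmaps (hCW hz)
    have hΨre : ∀ z ∈ C, (Ψ z).re = -U0 (φ z) + η * (SS (φ z)).re := by
      intro z hz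
      simp only [hΨ]
      rw [Complex.add_re, Complex.re_ofReal_mul, Complex.neg_re, hF _ (hmaps (hCW hz))]
    have hSS0 : ∀ z ∈ C, 0 ≤ (SS (φ z)).re := by
      intro z hz
      obtain ⟨h1, h2⟩ := ss_pos (hn1 z (hCW hz))
      rw [ss_re]
      linarith
    have hΨc : ContinuousOn (fun z => (Ψ z).re) C :=
      Complex.continuous_re.comp_continuousOn hΨd.continuousOn
    have hD := hMP C (fun z => u z + (Ψ z).re) hCo hCp (hlsc.add hΨc.lowerSemicontinuousOn)
      (by
        intro K hK hKc
        obtain ⟨B, hB⟩ := hKc.exists_bound_of_continuousOn (hΨc.mono hK)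
        refine ⟨1 + B, fun z hz => ?_⟩
        have h1 := hu01 z (hK hz)
        have h2 : |u z| ≤ 1 := by rw [abs_of_nonneg h1.1]; exact h1.2
        exact (abs_add_le _ _).trans (add_le_add h2 (hB z hz)))
      (fun a r hr hsub => super_add hΨd hlsc hu01 hsup hr hsub)
      (by
        intro ε hε
        by_contra hcon
        push Not at hcon
        -- compact sets
        have hK : ∀ n : ℕ, ∃ z ∈ C, (1 - 1 / ((n : ℝ) + 1) < ‖φ z‖ ∨
            -(1 / ((n : ℝ) + 1)) < (φ z).re) ∧ u z + (Ψ z).re < -ε := by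
          intro n
          set κ : ℝ := 1 / ((n : ℝ) + 1) with hκ
          have hκ0 : 0 < κ := by positivity
          set L : Set ℂ := {w | ‖w‖ ≤ 1 - κ ∧ w.re ≤ -κ} with hL
          have hLb : L ⊆ ball 0 1 := by
            intro w hw
            rw [mem_ball_zero_iff]
            have := hw.1
            linarith
          have hLc : IsCompact L := by
            refine IsCompact.of_isClosed_subset (isCompact_closedBall (0 : ℂ) 1) ?_
              (hLb.trans ball_subset_closedBall)
            exact (isClosed_le continuous_norm continuous_const).inter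
              (isClosed_le Complex.continuous_re continuous_const)
          obtain ⟨z, hz1, hz2, hz3⟩ := hcon (g '' L) (by
            rintro _ ⟨w, hw, rfl⟩
            apply hWC _ (g2 (hLb hw))
            apply hleft _ (g2 (hLb hw))
            rw [g4 w (hLb hw)]
            have := hw.2
            linarith) (hLc.image_of_continuousOn (g1.continuousOn.mono hLb))
          refine ⟨z, hz1, ?_, hz3⟩
          by_contra h
          push Not at h
          exact hz2 ⟨φ z, ⟨h.1, h.2⟩, g3 z (hCW hz1)⟩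
        choose z hzC hz hzD using hK
        obtain ⟨ζ, hζ, σ, hσ, hlim⟩ := (isCompact_closedBall (0 : ℂ) 1).tendsto_subseq
          (x := fun n => φ (z n)) fun n => ball_subset_closedBall (hmaps (hCW (hzC n)))
        have hlim' : Tendsto (fun n => φ (z (σ n))) atTop (𝓝 ζ) := hlim
        have hwn : ∀ n, ‖φ (z (σ n))‖ < 1 := fun n => hn1 _ (hCW (hzC _))
        have hwre : ∀ n, (φ (z (σ n))).re < 0 := fun n => hφn _ (hCW (hzC _)) (hzC _).2
        have hζ1 : ‖ζ‖ ≤ 1 := by simpa using hζ
        have hlre : Tendsto (fun n => (φ (z (σ n))).re) atTop (𝓝 ζ.re) :=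
          (Complex.continuous_re.tendsto ζ).comp hlim'
        have hζre : ζ.re ≤ 0 := le_of_tendsto hlre (Filter.Eventually.of_forall fun n => (hwre n).le)
        have hDn : ∀ n, u (z (σ n)) - U0 (φ (z (σ n))) + η * (SS (φ (z (σ n)))).re < -ε := by
          intro n
          have h1 := hzD (σ n)
          rw [hΨre _ (hzC _)] at h1
          linarith
        -- the cases
        have hcase : ‖ζ‖ = 1 ∨ ζ.re = 0 := by
          by_contra h
          push Not at h
          have h1 : ‖ζ‖ < 1 := lt_of_le_of_ne hζ1 h.1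
          have h2 : ζ.re < 0 := lt_of_le_of_ne hζre h.2
          have h3 : Tendsto (fun n : ℕ => 1 / (((σ n : ℕ) : ℝ) + 1)) atTop (𝓝 0) :=
            tendsto_one_div_add_atTop_nhds_zero_nat.comp hσ.tendsto_atTop
          have h4 : Tendsto (fun n : ℕ => 1 - 1 / (((σ n : ℕ) : ℝ) + 1)) atTop (𝓝 (1 - 0)) :=
            tendsto_const_nhds.sub h3
          have h5 : Tendsto (fun n : ℕ => -(1 / (((σ n : ℕ) : ℝ) + 1))) atTop (𝓝 (-0)) := h3.neg
          rw [sub_zero] at h4
          rw [neg_zero] at h5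
          have h6 := hlim'.norm.eventually_lt h4 h1
          have h7 := hlre.eventually_lt h5 h2
          obtain ⟨n, h8, h9⟩ := (h6.and h7).exists
          rcases hz (σ n) with h10 | h10
          · exact absurd h10 (not_lt.2 h8.le)
          · exact absurd h10 (not_lt.2 h9.le)
        by_cases hζn : ‖ζ‖ = 1
        · by_cases hζ0 : ζ.re = 0
          · -- the end points
            have him : ζ.im ^ 2 = 1 := by
              have h1 := Complex.sq_norm ζ
              rw [hζn, Complex.normSq_apply, hζ0] at h1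
              linarith [sq ζ.im]
            have hpt : ζ = I ∨ ζ = -I := by
              rcases (by
                have h9 : (ζ.im - 1) * (ζ.im + 1) = 0 := by linarith [sq ζ.im]
                rcases mul_eq_zero.1 h9 with h10 | h10
                · exact Or.inl (by linarith)
                · exact Or.inr (by linarith) : ζ.im = 1 ∨ ζ.im = -1) with h | h
              · left
                exact Complex.ext (by simpa using hζ0) (by simpa using h)
              · right
                exact Complex.ext (by simpa using hζ0) (by simpa using h)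
            obtain ⟨n, hn⟩ := (ss_large hwn hpt hlim' (1 / η)).exists
            have h1 := hDn n
            have h2 := hu01 _ (hzC (σ n))
            have h3 := U0_le_one (hwn n) (hwre n).le
            have h4 : η * (1 / η) ≤ η * (SS (φ (z (σ n)))).re := mul_le_mul_of_nonneg_left hn hη.le
            have h5 : η * (1 / η) = 1 := by field_simp
            linarith [h2.1]
          · obtain ⟨n, hn⟩ := (U0_small hwn hζn (lt_of_le_of_ne hζre hζ0) hlim' hε).exists
            have h1 := hDn n
            have h2 := hu01 _ (hzC (σ n))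
            have h3 := mul_nonneg hη.le (hSS0 _ (hzC (σ n)))
            linarith [h2.1]
        · have hζb : ζ ∈ ball (0 : ℂ) 1 := by
            rw [mem_ball_zero_iff]
            exact lt_of_le_of_ne hζ1 hζn
          have hζ0 : ζ.re = 0 := hcase.resolve_left hζn
          have hgW := g2 hζb
          have hgm : (g ζ).re = m := hright _ hgW (by rw [g4 ζ hζb]; exact hζ0)
          have hzlim : Tendsto (fun n => z (σ n)) atTop (𝓝 (g ζ)) := by
            have h1 : Tendsto (fun n => g (φ (z (σ n)))) atTop (𝓝 (g ζ)) :=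
              ((g1.differentiableAt (isOpen_ball.mem_nhds hζb)).continuousAt.tendsto).comp hlim'
            refine h1.congr fun n => ?_
            exact g3 _ (hCW (hzC _))
          have hfr : g ζ ∈ frontier C := by
            rw [hCo.frontier_eq]
            refine ⟨mem_closure_of_tendsto hzlim (Filter.Eventually.of_forall fun n => hzC _), ?_⟩
            intro h
            exact absurd hgm h.2.ne
          have h1 := hbd (g ζ) ⟨hfr, hgm⟩ ε hε
          have h2 : Tendsto (fun n => z (σ n)) atTop (𝓝[C] (g ζ)) := by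
            rw [tendsto_nhdsWithin_iff]
            exact ⟨hzlim, Filter.Eventually.of_forall fun n => hzC _⟩
          obtain ⟨n, hn⟩ := (h2.eventually h1).exists
          have h3 := hDn n
          have h4 := U0_le_one (hwn n) (hwre n).le
          have h5 := mul_nonneg hη.le (hSS0 _ (hzC (σ n)))
          linarith)
    have h1 := hD 0 h0C
    rw [hΨre 0 h0C] at h1
    linarith
  -- the value at zero
  have hSS : 0 ≤ (SS (φ 0)).re := by
    obtain ⟨h1, h2⟩ := ss_pos (hn1 0 h0W)
    rw [ss_re]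
    linarith
  have hfin : U0 (φ 0) ≤ u 0 := by
    apply le_of_forall_pos_le_add
    intro ε hε
    have h1 := hmain (ε / ((SS (φ 0)).re + 1)) (by positivity)
    refine h1.trans (add_le_add le_rfl ?_)
    rw [div_mul_eq_mul_div, div_le_iff₀ (by positivity)]
    nlinarith
  have hq := (hQB (Wd G m) (m : ℂ) 0 hDm hmW h0W).1 φ hφ
  have hm0 : (0 : ℂ) ≠ (m : ℂ) := by
    intro h
    have : m = 0 := by exact_mod_cast h.symm
    linarith
  have hρ : m * qn (Wd G m) m 0 = ‖φ 0‖ := by
    rw [hq, dslope_of_ne _ hm0, slope_def_field, hφ.2.2.2, sub_zero, zero_sub, norm_div, norm_neg,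
      Complex.norm_real, Real.norm_of_nonneg hm.le]
    field_simp
  have himz : (φ 0).im = 0 := by
    have h1 := hφc 0 h0W
    rw [map_zero] at h1
    have h2 := congrArg Complex.im h1
    rw [Complex.conj_im] at h2
    linarith
  have hneg := hφn 0 h0W (by simpa using hm)
  have hφ0 : φ 0 = -((‖φ 0‖ : ℝ) : ℂ) := by
    have h1 : φ 0 = (((φ 0).re : ℝ) : ℂ) := Complex.ext (by simp) (by simpa using himz)
    have h2 : ‖φ 0‖ = -(φ 0).re := by
      conv_lhs => rw [h1]
      rw [Complex.norm_real, Real.norm_of_nonpos hneg.le]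
    rw [h2]
    push_cast
    rw [neg_neg]
    exact h1
  have hU' := hU ‖φ 0‖ (norm_nonneg _) (hn1 0 h0W)
  rw [← hφ0] at hU'
  rw [hρ, ← hU']
  exact hfin

end Pool.Agent.Q75.HM
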