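import Pool.Agent.Q75.HM.Defs
import Pool.Agent.Helper405.Riemann

set_option autoImplicit false

/-!
# Project HM (helper75): harmonic measures of cross-sections do not determine the domain

Row MP_41df0b_an, frozen statement S04470 (disproof).  The whole proof.

All domains are unions of left half-strips (`LD`).  For such `G` and `t > 0` let `Wd G t` be the
double of `G ∩ {Re < t}` over the line `Re z = t`; it is simply connected and symmetric, and with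
its Riemann map `φ`, `φ t = 0`, the harmonic measure of the frozen statement is
`1 - 4/π arctan |φ 0| = 1 - 4/π arctan (t * qn (Wd G t) t 0)` (S_SY, S_MP, S_PL, S_PU).  So it is
enough to construct two different domains with the same function `t ↦ qn (Wd G t) t 0`.

The domains are `H ∪ ⋃ HS (t_k) (c_k)`, `t_k = k τ`, `c_k` decreasing.  `c_k` is chosen by the
intermediate value theorem (S_CO) so that `qn (Wd G_k t_k) t_k 0 = Q (t_k)` for a fixed function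
`Q t = q0 exp (k1 t + k2 t ^ 2)`.  This is possible if the flat continuation `c_{k+1} = c_k` has
`qn ≤ Q (t_{k+1})`.  The key inequality (S_FK) follows from the supermodularity of Green functions
(S_SM: if `A ∪ B ⊆ U`, `A ∩ B ⊆ V` then `g_A + g_B ≤ g_U + g_V`, by the maximum principle), applied
to `A = Wd G_k t_k`, `B = A + 2 τ`, `U = Wd G_{k-1} t_{k-1} + 2 τ`, `V = Wd G_{k+1} t_{k+1}` (S_WI),
from Harnack's inequality (S_HAR) and from an expansion at the centre (S_E1).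
Then the number of steps goes to infinity (ultrafilter limit; kernel convergence S_K1, S_K2).
-/

namespace Pool.Agent.Q75.HM

open Complex Set Metric Filter Topology

open scoped Real ComplexConjugate

/-- **QB.** Let `φ` be a Riemann map of `Ω`, `φ p = 0` (exists by `Helper405.Riemann.riemann`).  If
`f` is a competitor then `f ∘ φ⁻¹` maps the disc to the disc and fixes `0`, so by the Schwarz lemma
(`riemann_inv` gives the inverse map) `‖f z‖ ≤ ‖φ z‖` for `z ≠ p`, and `‖f' p‖ ≤ ‖φ' p‖` (chain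
rule), i.e. `‖dslope f p z‖ ≤ ‖dslope φ p z‖`.  So the supremum is attained at `φ` and is positive
(`φ` is injective, `φ' ≠ 0`).  Monotonicity: a competitor on `Ω'` is one on `Ω` (the zero function
is a competitor).  Last clause: `‖z - p‖ * ‖dslope φ p z‖ = ‖φ z‖ < 1`. -/
def S_QB : Prop :=
  ∀ (Ω : Set ℂ) (p z : ℂ), Dm Ω → p ∈ Ω → z ∈ Ω →
    (∀ φ, RM Ω p φ → qn Ω p z = ‖dslope φ p z‖) ∧ 0 < qn Ω p z ∧
    (∀ Ω' : Set ℂ, Ω ⊆ Ω' → qn Ω' p z ≤ qn Ω p z) ∧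
    (∀ f : ℂ → ℂ, DifferentiableOn ℂ f Ω → MapsTo f Ω (ball 0 1) → f p = 0 →
      ‖dslope f p z‖ ≤ qn Ω p z) ∧
    ‖z - p‖ * qn Ω p z < 1

/-- **QT.** Invariance under translations and dilations: `f ↦ f (· - a)` resp. `f ↦ f (l⁻¹ ·)` is a
bijection of the competitors (`dslope` of the composition: chain rule, both at `z ≠ p` and at
`z = p`). -/
def S_QT : Prop :=
  (∀ (Ω : Set ℂ) (a p z : ℂ), qn {w | w - a ∈ Ω} (p + a) (z + a) = qn Ω p z) ∧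
  (∀ (Ω : Set ℂ) (l : ℝ) (p z : ℂ), 0 < l →
    qn {w | (l : ℂ)⁻¹ * w ∈ Ω} ((l : ℂ) * p) ((l : ℂ) * z) = l⁻¹ * qn Ω p z)

/-- **SM** (supermodularity of Green functions).  Premise S_QB.  Let `φ_U`, ... be Riemann maps with
`φ p = 0`.  The function `h = dslope φ_U p * dslope φ_V p / (dslope φ_A p * dslope φ_B p)` is
holomorphic on `A ∩ B`; we show `‖h‖ ≤ 1 / (1 - η)` for every small `η`.  `K_A = {z ∈ A | ‖φ_A z‖ ≤
1 - η}` is compact (image of a closed disc under the inverse map), same for `B`, and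
`K = K_A ∩ K_B ⊆ A ∩ B` is compact and contains `p`.  If `z ∈ A ∩ B`, `z ∉ K_A`, then `z ≠ p` and
`‖h z‖ = (‖φ_U z‖ / ‖φ_B z‖) * (‖φ_V z‖ / ‖φ_A z‖) ≤ 1 / (1 - η)`, because `‖φ_U‖ ≤ ‖φ_B‖` on `B`
(`B ⊆ U`, monotonicity of `qn`), `‖φ_V z‖ < 1`, `‖φ_A z‖ > 1 - η`; similarly if `z ∉ K_B`.  For
`z ∈ K` choose an open `O` with `K ⊆ O`, compact closure in `A ∩ B`
(`exists_open_between_and_isCompact_closure`) and apply the maximum modulus principle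
(`Complex.norm_le_of_forall_mem_frontier_norm_le`): the frontier of `O` does not meet `K`. -/
def S_SM : Prop :=
  ∀ (U V A B : Set ℂ) (p z : ℂ), Dm U → Dm V → Dm A → Dm B → A ⊆ U → B ⊆ U → A ∩ B ⊆ V →
    p ∈ A ∩ B → z ∈ A ∩ B → qn U p z * qn V p z ≤ qn A p z * qn B p z

/-- **HN** (Harnack).  On the ball `h = exp (- L)` with `L` holomorphic (primitive of `- h'/h`),
`Re L ≥ 0`.  For `ε > 0` the function `(L - L z1) / (L + ε + conj (L z1 + ε))` maps the ball to the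
unit disc and vanishes at `z1`, so by the Schwarz lemma it is bounded by `ρ = ‖z - z1‖ / r`; hence
`Re L z + ε ≤ (1 + ρ) / (1 - ρ) * (Re L z1 + ε)`; `ε → 0`. -/
def S_HN : Prop :=
  ∀ (h : ℂ → ℂ) (z1 z : ℂ) (r : ℝ), 0 < r → DifferentiableOn ℂ h (ball z1 r) →
    (∀ w ∈ ball z1 r, h w ≠ 0 ∧ ‖h w‖ ≤ 1) → z ∈ ball z1 r →
    ‖h z1‖ ^ ((r + ‖z - z1‖) / (r - ‖z - z1‖)) ≤ ‖h z‖

/-- **HAR.** Premises S_QB, S_HN.  `h = dslope φ_U p / dslope φ_A p` on the ball. -/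
def S_HAR : Prop :=
  ∀ (A U : Set ℂ) (p z1 z : ℂ) (r : ℝ), Dm A → Dm U → A ⊆ U → p ∈ A → 0 < r →
    ball z1 r ⊆ A → z ∈ ball z1 r →
    (qn U p z1 / qn A p z1) ^ ((r + ‖z - z1‖) / (r - ‖z - z1‖)) ≤ qn U p z / qn A p z

/-- **SYC.** Take a Riemann map `φ` (`Helper405.Riemann.riemann`), multiply it by a unimodular
constant so that `φ' t > 0`.  `ψ z = conj (φ (conj z))` is a Riemann map too with `ψ t = 0`,
`ψ' t = φ' t`.  By the Schwarz lemma applied to `φ ∘ ψ⁻¹` and `ψ ∘ φ⁻¹` (or to the quotient) the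
two maps agree. -/
def S_SYC : Prop :=
  ∀ (Ω : Set ℂ) (t : ℝ), Dm Ω → (∀ z ∈ Ω, conj z ∈ Ω) → (t : ℂ) ∈ Ω →
    ∃ φ, RM Ω t φ ∧ 0 < (deriv φ t).re ∧ (deriv φ t).im = 0 ∧ ∀ z ∈ Ω, φ (conj z) = conj (φ z)

/-- **QBL.** Premise S_QB.  The function is a Riemann map of `Ω` which vanishes at `w`
(`Helper405.Riemann.comp_bl`, `bl`; and it is onto the disc). -/
def S_QBL : Prop :=
  ∀ (Ω : Set ℂ) (p w z : ℂ) (φ : ℂ → ℂ), Dm Ω → p ∈ Ω → w ∈ Ω → z ∈ Ω → RM Ω p φ →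
    qn Ω w z = ‖dslope (fun x => (φ x - φ w) / (1 - conj (φ w) * φ x)) w z‖

/-- **PA** (pure analysis).  For `‖u‖ < δ/4`: `‖φ (2u)‖ ≤ ‖2u - t‖/δ ≤ 9/16`,
`‖φ (t+u)‖ ≤ ‖u‖/δ ≤ 1/4` (Schwarz lemma), so the denominator is at least `55/64`, `‖N‖ ≤ 13/16`,
and `dslope N t` is bounded by `13/(3 δ)` on `ball 0 (δ/4)` (maximum principle on the circles
`‖u‖ = r → δ/4`, `‖u - t‖ ≥ r - δ/16`).  So `P` is holomorphic and `‖P‖ ≤ 6/δ` on `ball 0 (δ/4)`.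
`P - P 0` is bounded by `12/δ` and vanishes at `0`; `R u = P u * P (-u) - P 0 ^ 2` is even, vanishes
at `0`, so it vanishes of order two, and `‖R‖ ≤ 72/δ^2`; Schwarz lemma of order one resp. two
(`Complex.dist_le_mul_div_pow_of_mapsTo_ball_of_isLittleO`). -/
def S_PA : Prop :=
  ∀ (φ : ℂ → ℂ) (t τ δ : ℝ), 0 < δ → 0 ≤ t → t ≤ δ / 16 → 0 ≤ τ → τ ≤ δ / 16 →
    DifferentiableOn ℂ φ (ball (t : ℂ) δ) → MapsTo φ (ball (t : ℂ) δ) (ball 0 1) →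
    φ t = 0 → ∀ N P : ℂ → ℂ, (∀ u, N u = φ (2 * u) - φ (t + u)) →
    (∀ u, P u = dslope N t u / (1 - φ (t + u) * φ (2 * u))) →
    ‖P τ * P (-τ) - P 0 ^ 2‖ ≤ 1152 * τ ^ 2 / δ ^ 4 ∧ ‖P τ - P 0‖ ≤ 48 * τ / δ ^ 2

/-- **E1.** Premises S_QB, S_QBL, S_SYC, S_PA.  With the map `φ` of S_SYC (`p = t`), which is real at
real points, S_QBL gives `qn Ω (t+u) (2u) = ‖P u‖` for real `u` (both for `u ≠ t` and `u = t`), where
`P` is the function of S_PA; in particular `qn Ω t 0 = ‖P 0‖`. -/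
def S_E1 : Prop :=
  ∀ (Ω : Set ℂ) (t τ δ : ℝ), Dm Ω → (∀ z ∈ Ω, conj z ∈ Ω) → 0 < δ → 0 ≤ t → t ≤ δ / 16 →
    0 < τ → τ ≤ δ / 16 → ball (t : ℂ) δ ⊆ Ω →
    qn Ω ((t + τ : ℝ) : ℂ) ((2 * τ : ℝ) : ℂ) * qn Ω ((t - τ : ℝ) : ℂ) ((-(2 * τ) : ℝ) : ℂ) ≤
      qn Ω t 0 ^ 2 + 1152 * τ ^ 2 / δ ^ 4 ∧
    qn Ω ((t + τ : ℝ) : ℂ) ((2 * τ : ℝ) : ℂ) ≤ qn Ω t 0 + 48 * τ / δ ^ 2

/-- **WD** (geometry of the doubled domain).  Open: clear for the first two parts, the third part is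
a union of strips; at a point of the line `Re z = m` only the third part matters.  Simply connected:
the set is closed under `(x, y) ↦ (x, s y)`, `0 ≤ s ≤ 1` (and `|y'| ≤ |y|`), and contains the real
axis, so it is contractible. -/
def S_WD : Prop :=
  ∀ (G : Set ℂ) (m c M : ℝ), LD G → 0 < c → HS m c ⊆ G → (∀ z ∈ G, |z.im| < M) →
    Dm (Wd G m) ∧ (∀ z : ℂ, |z.im| < c → z ∈ Wd G m) ∧
    (∀ z ∈ Wd G m, conj z ∈ Wd G m ∧ rf m z ∈ Wd G m) ∧ (∀ z ∈ Wd G m, |z.im| < M)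

/-- **WI** (the inclusions).  Here the third part of `Wd (G ∪ HS t c) t` is `{|Im z| < c}` and of
`Wd (G ∪ HS t c ∪ HS (t + τ) c) (t + τ)` too (because `G ⊆ {Re z < t - τ}`), and the third part of
`Wd G (t - τ)` contains `{|Im z| < c}`.  With `R z = rf t z`: `A = {|Im z| < c} ∪ G ∪ R G`,
`B = A + 2τ`, `U = (G + 2τ) ∪ R G ∪ T`, `V = {|Im z| < c} ∪ G ∪ (R G + 2τ)`.
`G ⊆ G + 2τ` and `R G + 2τ ⊆ R G` (LD).  For `A ∩ B ⊆ V`: if `z ∈ R G` then `Re z > t + τ`, if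
`z ∈ G + 2τ` then `Re z < t + τ`. -/
def S_WI : Prop :=
  ∀ (G : Set ℂ) (t τ c : ℝ), LD G → (∀ z ∈ G, z.re < t - τ) → 0 < τ → 0 < c →
    HS (t - τ) c ⊆ G →
    Wd (G ∪ HS t c) t ⊆ {z | z - ((2 * τ : ℝ) : ℂ) ∈ Wd G (t - τ)} ∧
    {z | z - ((2 * τ : ℝ) : ℂ) ∈ Wd (G ∪ HS t c) t} ⊆ {z | z - ((2 * τ : ℝ) : ℂ) ∈ Wd G (t - τ)} ∧
    Wd (G ∪ HS t c) t ∩ {z | z - ((2 * τ : ℝ) : ℂ) ∈ Wd (G ∪ HS t c) t} ⊆
      Wd (G ∪ HS t c ∪ HS (t + τ) c) (t + τ)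

/-- **FK** (key inequality).  Premises S_QB, S_QT, S_SM, S_HAR, S_E1, S_WD, S_WI. -/
def S_FK : Prop :=
  ∀ (G : Set ℂ) (t τ c δ M : ℝ), LD G → (∀ z ∈ G, z.re < t - τ ∧ |z.im| < M) → 0 < τ → τ ≤ t →
    0 < δ → δ ≤ c → HS (t - τ) c ⊆ G → t ≤ δ / 16 → τ ≤ δ / 16 →
    qn (Wd (G ∪ HS t c ∪ HS (t + τ) c) (t + τ)) ((t + τ : ℝ) : ℂ) 0 *
        qn (Wd G (t - τ)) ((t - τ : ℝ) : ℂ) 0 ≤
      (qn (Wd (G ∪ HS t c) t) t 0 ^ 2 + 1152 * τ ^ 2 / δ ^ 4) *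
      ((qn (Wd (G ∪ HS t c) t) t 0 + 48 * τ / δ ^ 2) / qn (Wd G (t - τ)) ((t - τ : ℝ) : ℂ) 0) ^
        (4 * τ / (δ - 2 * τ))

/-- **NU** (numerics).  Take logarithms: `log Q (t+τ) + log Q (t-τ) - 2 log Q t = 2 k2 τ²`;
`log (1 + x) ≤ x` gives `1152 τ²/(δ⁴ Q(t)²) ≤ 1152 τ²/(δ⁴ q0²)` for the first factor (`Q ≥ q0`), and
for `τ ≤ b ≤ δ/16` we have `4τ/(δ - 2τ) ≤ 8τ/δ`, `log ((Q t + 48 τ/δ²)/Q (t-τ)) ≤ (k1 + 2 k2 b) τ +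
48 τ/(δ² q0)` (and the left side is `≥ 0`).  So one needs `2 k2 ≥ 1152/(δ⁴ q0²) + (8/δ)(k1 + 2 k2 b)
+ 384/(δ³ q0)`.  First `b ≤ δ/32` (then the term with `k2 b` is at most `k2/2`), then `k2` large,
then `b` smaller so that `k1 b + k2 b² ≤ log 2`. -/
def S_NU : Prop :=
  ∀ δ q0 k1 B : ℝ, 0 < δ → 0 < q0 → 0 ≤ k1 → 0 < B → ∃ k2 b : ℝ, 0 ≤ k2 ∧ 0 < b ∧ b ≤ B ∧
    b ≤ δ / 16 ∧ (∀ t : ℝ, 0 ≤ t → t ≤ b → Qf q0 k1 k2 t ≤ 2 * q0) ∧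
    ∀ t τ : ℝ, 0 < τ → τ ≤ t → t + τ ≤ b →
      (Qf q0 k1 k2 t ^ 2 + 1152 * τ ^ 2 / δ ^ 4) *
        ((Qf q0 k1 k2 t + 48 * τ / δ ^ 2) / Qf q0 k1 k2 (t - τ)) ^ (4 * τ / (δ - 2 * τ)) ≤
      Qf q0 k1 k2 (t + τ) * Qf q0 k1 k2 (t - τ)

/-- **LO** (narrow openings).  Premise S_QB.  Competitor `f z = Z / (c + √(c² + Z²))`, `Z = z - t`
(principal branch, `cpow (1/2)`): for `z ∈ Ω` the number `c² + Z²` is not in `(-∞, 0]` (else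
`Z = ± i y`, `|y| ≥ c`).  With `s = √(c² + Z²)`, `Re s > 0`: `‖f‖² = ‖s - c‖ / ‖s + c‖ < 1`.
`‖dslope f t 0‖ = 1 / (c + √(c² + t²)) ≥ 1 / (2 c + t)` (for `t = 0` the derivative is
`1 / (2 c)`). -/
def S_LO : Prop :=
  ∀ (Ω : Set ℂ) (t c : ℝ), Dm Ω → (t : ℂ) ∈ Ω → (0 : ℂ) ∈ Ω → 0 ≤ t → 0 < c →
    (∀ z ∈ Ω, z.re = t → |z.im| < c) → 1 / (2 * c + t) ≤ qn Ω t 0

/-- **CM** (comparison).  Premise S_QB.  `h = dslope φ_W p / dslope φ_{W'} p` is holomorphic on `W`;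
we show `‖h‖ ≤ 1 / (1 - ε - η)` for all small `η > 0`.  `K = {z ∈ W' | ‖φ_{W'} z‖ ≤ 1 - ε - η}` is
compact, contains `p`, and is contained in `W` (hypothesis, `‖w - p‖ * qn W' p w = ‖φ_{W'} w‖`).  On
`W \ K`: `‖h z‖ = ‖φ_W z‖ / ‖φ_{W'} z‖ ≤ 1 / (1 - ε - η)`.  Maximum modulus principle as in S_SM. -/
def S_CM : Prop :=
  ∀ (W W' : Set ℂ) (p z : ℂ) (ε : ℝ), Dm W → Dm W' → W ⊆ W' → p ∈ W → z ∈ W → 0 ≤ ε → ε < 1 →
    (∀ w ∈ W', w ∉ W → 1 - ε ≤ ‖w - p‖ * qn W' p w) → (1 - ε) * qn W p z ≤ qn W' p z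

/-- **TI** (points near the tip of a ray in the complement).  Premise S_QB.  Let `y ≥ 0` (the other
case by conjugation, with the lower ray).  `p' = x + i c`, `s z = √(i (z - p'))` (principal branch;
`i (z - p')` is not in `(-∞, 0]` for `z ∈ W`), `s0 = s t`, competitor
`f z = (s z - s0) / (s z + conj s0)`.  At `w = x + i y`: `s w = √(c - y) ≥ 0` is real,
`‖f w‖² = 1 - 4 (s w) Re s0 / ‖s w + conj s0‖² ≥ 1 - 4 s w / Re s0`, `Re s0 ≥ ‖s0‖ / √2 ≥ √(c/2)`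
(`i (t - p') = c + i (t - x)` has positive real part and norm `≥ c`).  So
`‖f w‖ ≥ ‖f w‖² ≥ 1 - 4 √2 √((c - y) / c)`. -/
def S_TI : Prop :=
  ∀ (W : Set ℂ) (t x y c : ℝ), Dm W → (t : ℂ) ∈ W → (⟨x, y⟩ : ℂ) ∈ W → 0 < c → |y| < c →
    (∀ s : ℝ, c ≤ s → (⟨x, s⟩ : ℂ) ∉ W ∧ (⟨x, -s⟩ : ℂ) ∉ W) →
    1 - 6 * √((c - |y|) / c) ≤ ‖(⟨x, y⟩ : ℂ) - t‖ * qn W t ⟨x, y⟩

/-- **CO** (continuity in the height).  Premises S_QB, S_WD, S_CM, S_TI.  Let `c1 < c2 ≤ c'`.  Then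
`W1 = Wd (G ∪ HS t c1) t ⊆ W2 = Wd (G ∪ HS t c2) t`, where `Wd (G ∪ HS t c) t = {|Im z| < c} ∪ G ∪
R G`, so `qn W2 ≤ qn W1`.  A point `w ∈ W2 \ W1` has `c1 ≤ |Im w| < c2` and `t' ≤ Re w ≤ 2 t - t'`
(since `HS t' c' ⊆ G`), and the vertical rays above height `c2` over `Re w` are in the complement of
`W2`.  By S_TI and S_CM: `(1 - 6 √((c2 - c1)/c2)) * qn W1 ≤ qn W2`. -/
def S_CO : Prop :=
  ∀ (G : Set ℂ) (t' t c' M : ℝ), LD G → (∀ z ∈ G, z.re < t' ∧ |z.im| < M) → t' < t → 0 ≤ t →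
    0 < c' → HS t' c' ⊆ G →
    ContinuousOn (fun c : ℝ => qn (Wd (G ∪ HS t c) t) t 0) (Ioc 0 c')

/-- **UL** (Montel along an ultrafilter).  Pointwise limits along the ultrafilter exist (bounded);
then `Helper405.Riemann.tlu_of_pointwise` and `TendstoLocallyUniformlyOn.differentiableOn` on small
balls (or equicontinuity by Cauchy's estimate). -/
def S_UL : Prop :=
  ∀ (𝒰 : Ultrafilter ℕ) (U : Set ℂ) (F : ℕ → ℂ → ℂ), IsOpen U →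
    (∀ z ∈ U, ∃ r : ℝ, 0 < r ∧ ∀ᶠ n in (𝒰 : Filter ℕ),
      DifferentiableOn ℂ (F n) (ball z r) ∧ ∀ w ∈ ball z r, ‖F n w‖ ≤ 1) →
    ∃ f : ℂ → ℂ, DifferentiableOn ℂ f U ∧
      ∀ z ∈ U, ∃ r : ℝ, 0 < r ∧ TendstoUniformlyOn F f (𝒰 : Filter ℕ) (ball z r)

/-- **K1.** Premises S_QB, S_UL.  Let `φ n` be Riemann maps of `W n` with `φ n (p n) = 0`.  By S_UL
they converge on `Ω` to a holomorphic `f`, `‖f‖ ≤ 1`, `f p0 = 0` (uniform convergence near `p0`), so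
`‖f‖ < 1` on `Ω` (maximum principle on the connected set `Ω`), `f` is a competitor and
`p0 * qn Ω p0 0 ≥ ‖f 0‖ = lim ‖φ n 0‖ = lim p n * qn (W n) (p n) 0`.  Divide by `p0 > 0`
(`qn (W n) (p n) 0 < 1 / p n` is bounded). -/
def S_K1 : Prop :=
  ∀ (𝒰 : Ultrafilter ℕ) (W : ℕ → Set ℂ) (p : ℕ → ℝ) (Ω : Set ℂ) (p0 : ℝ),
    (∀ n, Dm (W n) ∧ ((p n : ℝ) : ℂ) ∈ W n ∧ (0 : ℂ) ∈ W n ∧ 0 < p n) → Dm Ω → 0 < p0 →
    (p0 : ℂ) ∈ Ω → (0 : ℂ) ∈ Ω → Tendsto p (𝒰 : Filter ℕ) (𝓝 p0) →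
    (∀ z ∈ Ω, ∃ r : ℝ, 0 < r ∧ ∀ᶠ n in (𝒰 : Filter ℕ), ball z r ⊆ W n) →
    ∀ ε : ℝ, 0 < ε → ∀ᶠ n in (𝒰 : Filter ℕ), qn (W n) (p n) 0 ≤ qn Ω p0 0 + ε

/-- **K2.** Premises S_QB, S_UL.  Suppose not; then for an `ε > 0` eventually
`qn (W n) (p n) 0 < qn Ω p0 0 - ε` (ultrafilter).  Let `ψ n : ball 0 1 → W n` be the inverse Riemann
maps (`Helper405.Riemann.riemann_inv`), `ψ n 0 = p n`, `ψ n (ζ n) = 0`, `‖ζ n‖ = p n * qn (W n)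
(p n) 0`, and `ζ n → ζ`, `‖ζ‖ ≤ p0 (qn Ω p0 0 - ε) < 1`.  With `E z = tanh (π z / (4 M))`, a
biholomorphic map of the strip `{|Im z| < M}` onto the unit disc, S_UL gives a limit of
`E ∘ ψ n`; its value at `0` is `E p0`, in the open disc, so by the maximum principle all values are
in the open disc and `ψ n → ψ` locally uniformly, `ψ` holomorphic, `ψ 0 = p0`, `ψ ζ = 0`.  `ψ` is not
constant, so by Hurwitz (`Helper405.Riemann.hurwitz`, or Rouche) every value `ψ w` has a ball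
around it which is contained in `ψ n '' ball 0 1 = W n` for eventually all `n`; hence
`ψ '' ball 0 1 ⊆ Ω`.  If `g` is a competitor on `Ω` then `g ∘ ψ` fixes `0` and maps the disc to
itself, so `‖g 0‖ = ‖g (ψ ζ)‖ ≤ ‖ζ‖`; so `p0 * qn Ω p0 0 ≤ ‖ζ‖`, a contradiction. -/
def S_K2 : Prop :=
  ∀ (𝒰 : Ultrafilter ℕ) (W : ℕ → Set ℂ) (p : ℕ → ℝ) (Ω : Set ℂ) (p0 M : ℝ),
    (∀ n, Dm (W n) ∧ ((p n : ℝ) : ℂ) ∈ W n ∧ (0 : ℂ) ∈ W n ∧ 0 < p n ∧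
      ∀ z ∈ W n, |z.im| < M) → Dm Ω → 0 < p0 →
    (p0 : ℂ) ∈ Ω → (0 : ℂ) ∈ Ω → Tendsto p (𝒰 : Filter ℕ) (𝓝 p0) →
    (∀ z : ℂ, ∀ r : ℝ, 0 < r → (∀ᶠ n in (𝒰 : Filter ℕ), ball z r ⊆ W n) → z ∈ Ω) →
    ∀ ε : ℝ, 0 < ε → ∀ᶠ n in (𝒰 : Filter ℕ), qn Ω p0 0 ≤ qn (W n) (p n) 0 + ε

/-- **LA** (geometry of the limit `N → ∞`).  `Ω = Wd (GH H b h) t`, `W N = Wd (GH H b (g N)) (T N)`.
(K1) Let `z ∈ Ω`.  If `Re z < t`, `z ∈ H`: a ball around `z` is in `H ∩ {Re < t}`.  If `Re z < t`,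
`z ∈ HS s (h s)`: take `|Im z| < y < h s`; eventually `g N s > y`, so `HS s y ⊆ GH H b (g N)`.
Mirror images: `rf (T N) z → rf t z`.  If `|Im z| < y`, `HS t y ⊆ GH H b h`, then `h s ≥ y` for all
`s < t`, `s > 0` (a point `(x, y')`, `s < x < t`, `y' < y`, is in some `HS s' (h s')`, `s' > x`, and
`h s' ≤ h s`), so `h t ≥ y` by the hypothesis on `t`, and `g N (T N) = g N t > y'` eventually for
`|Im z| < y' < y`, so `HS (T N) y' ⊆ GH H b (g N)`.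
(K2) By conjugation `Im z ≥ 0`.  Let `ball z r ⊆ W N` eventually, let first `Re z < t`, and `r`
small.  The point `w = (Re z + r/2, Im z + r/2)` is in `W N` and left of `T N`, hence in
`GH H b (g N)`.  If `w ∈ H` then `z ∈ H` (LD).  Else `w ∈ HS s (g N s)`.  If `s0 = Re z + r/4 > 0`
then `g N s0 ≥ g N s > Im z + r/2` (antitone); so (frequently, hence in the limit) `h s0 ≥ Im z +
r/2` and `z ∈ HS s0 (h s0)`.  If `s0 ≤ 0`: `Im z < g N s ≤ c0` and `Re z < 0` give `z ∈ H`.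
`Re z > t`: mirror images (`T N → t`).  `Re z = t`: the points `(x, Im z + r/2)`, `t - r/2 < x < t`,
`0 < x`, are in `GH H b (g N)` and not in `H`, so `h s0 ≥ Im z + r/2` for all `0 < s0 < t` and
`HS t (Im z + r/2) ⊆ GH H b h`. -/
def S_LA : Prop :=
  ∀ (H : Set ℂ) (c0 M b δ t : ℝ) (g : ℕ → ℝ → ℝ) (h : ℝ → ℝ) (𝒰 : Ultrafilter ℕ) (T : ℕ → ℝ),
    HB H c0 M → 0 < b → 0 < δ → (∀ N, AntitoneOn (g N) (Ioc 0 b)) →
    (∀ N, ∀ s ∈ Ioc 0 b, δ ≤ g N s ∧ g N s ≤ c0) →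
    (∀ s ∈ Ioc 0 b, Tendsto (fun N => g N s) (𝒰 : Filter ℕ) (𝓝 (h s))) → 0 < t → t < b →
    (∀ N, t ≤ T N ∧ T N ≤ b ∧ g N (T N) = g N t) → Tendsto T (𝒰 : Filter ℕ) (𝓝 t) →
    (∀ ε : ℝ, 0 < ε → ∃ s, 0 < s ∧ s < t ∧ h s < h t + ε) →
    (∀ z ∈ Wd (GH H b h) t, ∃ r : ℝ, 0 < r ∧
      ∀ᶠ N in (𝒰 : Filter ℕ), ball z r ⊆ Wd (GH H b (g N)) (T N)) ∧
    (∀ z : ℂ, ∀ r : ℝ, 0 < r →
      (∀ᶠ N in (𝒰 : Filter ℕ), ball z r ⊆ Wd (GH H b (g N)) (T N)) → z ∈ Wd (GH H b h) t)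

/-- **LB** (geometry of the limit `p n ↑ t`).  Similar and easier: the third part of `Wd G t` is
contained in the third part of `Wd G (p n)`; if `Re z = t` and `ball z r ⊆ Wd G (p n)` eventually,
then `HS (p n) (|Im z| + r/2) ⊆ G`, so `HS t (|Im z| + r/2) ⊆ G`. -/
def S_LB : Prop :=
  ∀ (G : Set ℂ) (t : ℝ) (p : ℕ → ℝ) (𝒰 : Ultrafilter ℕ), LD G → (∀ n, p n < t) →
    Tendsto p (𝒰 : Filter ℕ) (𝓝 t) →
    (∀ z ∈ Wd G t, ∃ r : ℝ, 0 < r ∧ ∀ᶠ n in (𝒰 : Filter ℕ), ball z r ⊆ Wd G (p n)) ∧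
    (∀ z : ℂ, ∀ r : ℝ, 0 < r → (∀ᶠ n in (𝒰 : Filter ℕ), ball z r ⊆ Wd G (p n)) → z ∈ Wd G t)

/-- **GO.** An antitone function has only countably many discontinuities; the complement of a
countable set is dense in `(0, t)`. -/
def S_GO : Prop :=
  ∀ (h : ℝ → ℝ) (b t : ℝ), AntitoneOn h (Ioc 0 b) → 0 < t → t ≤ b →
    ∃ p : ℕ → ℝ, (∀ n, 0 < p n ∧ p n < t) ∧ Tendsto p atTop (𝓝 t) ∧
      ∀ n, ∀ ε : ℝ, 0 < ε → ∃ s, 0 < s ∧ s < p n ∧ h s < h (p n) + ε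

/-- **SY** (symmetric Riemann map of the doubled domain).  Premises S_WD, S_SYC.  Take `φ` of S_SYC
with `t = m`.  `ψ z = - conj (φ (rf m z))` is a Riemann map, `ψ m = 0`, with the same derivative at
`m` (positive), so `ψ = φ` (Schwarz lemma, as in S_SYC).  If `φ z` is purely imaginary then
`φ (rf m z) = - conj (φ z) = φ z`, so `rf m z = z` and `Re z = m`.  So `Re φ` does not vanish on the
connected set `Wd G m ∩ {Re z < m}`; it is negative near `m` (`φ' m > 0`). -/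
def S_SY : Prop :=
  ∀ (G : Set ℂ) (m c M : ℝ), LD G → 0 < c → HS m c ⊆ G → (∀ z ∈ G, |z.im| < M) →
    ∃ φ, RM (Wd G m) m φ ∧ (∀ z ∈ Wd G m, φ (conj z) = conj (φ z)) ∧
      (∀ z ∈ Wd G m, φ (rf m z) = -conj (φ z)) ∧ ∀ z ∈ Wd G m, z.re < m → (φ z).re < 0

/-- **MP** (minimum principle).  Suppose `D z0 < -2 ε < 0`; take `K` for `ε`; then `z0 ∈ K` and `D`
attains its minimum `m < -ε` over `K` (lower semicontinuous on a compact set), which is the minimum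
over `C`.  `{z ∈ C | D z = m}` is closed in `C` (lower semicontinuity) and open: if `D a = m` then
for small circles around `a` the integral of `D - m ≥ 0` is `≤ 0`, so `D = m` almost everywhere on
the circle (`D` is measurable on the circle since it is lower semicontinuous, and bounded), and by
lower semicontinuity everywhere.  So `D = m` on `C`, but `C \ K` is not empty (`C` is open, not
empty, `K ⊆ C` compact), contradiction. -/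
def S_MP : Prop :=
  ∀ (C : Set ℂ) (D : ℂ → ℝ), IsOpen C → IsPreconnected C → LowerSemicontinuousOn D C →
    (∀ K ⊆ C, IsCompact K → ∃ B : ℝ, ∀ z ∈ K, |D z| ≤ B) →
    (∀ a : ℂ, ∀ r : ℝ, 0 < r → closedBall a r ⊆ C →
      (∫ θ in (0 : ℝ)..(2 * π), D (circleMap a r θ)) ≤ 2 * π * D a) →
    (∀ ε : ℝ, 0 < ε → ∃ K ⊆ C, IsCompact K ∧ ∀ z ∈ C, z ∉ K → -ε ≤ D z) → ∀ z ∈ C, 0 ≤ D z

/-- **UZ** (harmonic measure in the half disc).  `F ζ = 1 - (2/π) i log ((1 + i ζ)/(1 - i ζ))`: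
`w = (1 + i ζ)/(1 - i ζ)` has `Re w = (1 - ‖ζ‖²)/‖1 - i ζ‖² > 0`, `Im w = 2 Re ζ/‖1 - i ζ‖²`, so
`arg w = arctan (2 Re ζ / (1 - ‖ζ‖²))` and `Re F = 1 + (2/π) arg w`.  Second clause:
`arctan (2ρ/(1 - ρ²)) = 2 arctan ρ`. -/
def S_UZ : Prop :=
  (∃ F : ℂ → ℂ, DifferentiableOn ℂ F (ball 0 1) ∧ ∀ ζ ∈ ball (0 : ℂ) 1, (F ζ).re = U0 ζ) ∧
  ∀ ρ : ℝ, 0 ≤ ρ → ρ < 1 → U0 (-(ρ : ℂ)) = 1 - 4 / π * Real.arctan ρ

/-- **PL** (lower bound for the Perron class).  Premises S_WD, S_QB, S_SY, S_MP, S_UZ.  Let `u` be in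
the class, `φ` as in S_SY, `s z = log (2/‖φ z - i‖) + log (2/‖φ z + i‖) ≥ 0`, harmonic on `C`,
`η > 0`.  `D = u - U0 ∘ φ + η s` satisfies the hypotheses of S_MP on `C = {z ∈ G | Re z < m}`: it is
lower semicontinuous, bounded on compact sets, super-mean (`U0 ∘ φ = Re (F ∘ φ)` and `s` have the
mean value property).  Boundary: let `ε > 0`.  There is `κ > 0` such that `η s > 1` where
`‖φ z - i‖ < κ` or `‖φ z + i‖ < κ`.  The set `{i y | |y| ≤ 1, |i y ∓ i| ≥ κ}` is compact in the open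
disc, its preimage `L` under `φ` is a compact subset of `Wd G m ∩ {Re z = m}`, which consists of
points of `frontier C`, so by compactness there is an open `O ⊇ L` with `u > 1 - ε` on `O ∩ C`.
By compactness of the closed half disc there are `κ' > 0`: if `z ∈ C` is not in `O` and `φ z` is at
distance `≥ κ` from `± i` and `Re φ z > -κ'` then `‖φ z‖ > 1 - κ'`..., and `U0 (ζ) < ε` when
`‖ζ‖ > 1 - κ''`, `Re ζ ≤ -κ'` (formula of `U0`).  So off the compact set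
`{z ∈ C | ‖φ z‖ ≤ 1 - κ'', Re φ z ≤ -κ'}` (preimage of a compact subset of the open half disc) we
have `D ≥ -ε`.  [Also possible: sequences.  If `z n ∈ C`, `φ (z n) → ζ` with `‖ζ‖ ≤ 1`, `Re ζ ≤ 0`,
and `ζ` is not in the open half disc, then `liminf D (z n) ≥ 0` in the three cases `ζ = ± i`,
`Re ζ = 0` and `‖ζ‖ < 1` (then `z n → φ⁻¹ ζ`), `‖ζ‖ = 1` and `Re ζ < 0`.]  So `D ≥ 0` on `C`; at `0`
let `η → 0`: `u 0 ≥ U0 (φ 0)`, `φ 0` is real and negative, `|φ 0| = m * qn (Wd G m) m 0`. -/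
def S_PL : Prop :=
  ∀ (G : Set ℂ) (m c M : ℝ), LD G → 0 < c → HS m c ⊆ G → (∀ z ∈ G, |z.im| < M) → 0 < m →
    ∀ x ∈ PS {z | z ∈ G ∧ z.re < m} m, 1 - 4 / π * Real.arctan (m * qn (Wd G m) m 0) ≤ x

/-- **PU** (upper bound).  Premises S_WD, S_QB, S_SY, S_UZ.  Let `H* = sup {y | HS m y ⊆ G}`
(finite, positive), `p± = m ± i H*`, `s z = log ‖1 + 1/(p₊ - z)‖ + log ‖1 + 1/(p₋ - z)‖`, which is
positive and harmonic on `{Re z < m}` (`Re (1/(p - z)) > 0`) and tends to `∞` at `p±`.  For `η > 0`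
take `u = min 1 (U0 ∘ φ + η s)`: continuous, values in `[0, 1]`, super-mean (minimum of functions
with the mean value property).  Boundary: let `ζ ∈ frontier C`, `Re ζ = m`.  For all `y < |Im ζ|` we
have `HS m y ⊆ G` (LD), so `|Im ζ| ≤ H*`.  If `|Im ζ| < H*` then `ζ ∈ Wd G m`, `φ` is continuous at
`ζ`, `Re φ ζ = 0` (since `rf m ζ = ζ`), `U0 (φ ζ) = 1`, so `u → 1`.  If `|Im ζ| = H*` then `s → ∞`
and `u = 1` near `ζ`.  Value at `0`: `u 0 ≤ U0 (φ 0) + η s 0`, `η → 0`. -/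
def S_PU : Prop :=
  ∀ (G : Set ℂ) (m c M : ℝ), LD G → 0 < c → HS m c ⊆ G → (∀ z ∈ G, |z.im| < M) → 0 < m →
    ∀ ε : ℝ, 0 < ε → ∃ x ∈ PS {z | z ∈ G ∧ z.re < m} m,
      x ≤ 1 - 4 / π * Real.arctan (m * qn (Wd G m) m 0) + ε

/-- **BA** (first step).  Premises S_QB, S_QT, S_WD.  `D0 = Wd H 0`, `l = 1 - C0 τ`.  The star
property says `l D0 + τ ⊆ Wd (H ∪ HS τ c0) τ`, so `qn (Wd (H ∪ HS τ c0) τ) τ 0 ≤ qn (l D0 + τ) τ 0 =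
qn (l D0) 0 (-τ) = l⁻¹ qn D0 0 (-τ/l)`.  `ball 0 c0 ⊆ D0`, the Riemann map `φ` of `D0` at `0`
satisfies `‖dslope φ 0‖ ≤ 1/c0` on `ball 0 c0` (Schwarz lemma), so `qn D0 0 x ≤ qn D0 0 0 +
2 ‖x‖ / c0²` for `‖x‖ < c0` (Schwarz lemma again).  So the left side is at most
`(1 - C0 τ)⁻¹ (q0 + 2 τ / ((1 - C0 τ) c0²)) ≤ q0 exp (k1 τ)` for small `τ`. -/
def S_BA : Prop :=
  ∀ (H : Set ℂ) (c0 M C0 : ℝ), HB H c0 M → StarP H c0 C0 → ∃ k1 τ0 : ℝ, 0 ≤ k1 ∧ 0 < τ0 ∧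
    ∀ τ : ℝ, 0 < τ → τ ≤ τ0 →
      qn (Wd (H ∪ HS τ c0) τ) τ 0 ≤ qn (Wd H 0) 0 0 * Real.exp (k1 * τ)

/-- **BB** (the two left parts).  Premises S_QB, S_QT, S_WD.  `H1 = HS 0 1`, `c1 = 1`: `Wd H1 0` and
`Wd (H1 ∪ HS τ 1) τ` are the strip `{|Im z| < 1}`, the star property holds with every `C0`.
`η X = max 1 (min 2 ((X + 3)/4))`, `H' = {Re z < 0, |Im z| < η (- Re z)}`, for `l > 0`
`H2 = {z | l⁻¹ z ∈ H'} = {Re z < 0, |Im z| < l η (- Re z / l)}`, `c2 = l`.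
`Wd H2 0 = {|Im z| < l η (|Re z|/l)}` and `Wd (H2 ∪ HS τ l) τ ⊇ {|Im z| < l η ((|Re z - τ| - τ)/l)}`.
Star property with `C0 = 1/l`: it is enough to see (case `l = 1` after dilation, `0 < τ < 1`,
`X ≥ 0`) `(1 - τ) η X ≤ η ((1 - τ) X - τ)`: if `X ≤ 1` then `η X = 1` and `η ≥ 1`; if `1 ≤ X ≤ 5`
then `η X = (X+3)/4`, `η ((1-τ) X - τ) ≥ ((1-τ) X - τ + 3)/4` (or the left side is `≤ 1`), and
`τ (X + 3) ≥ τ X + τ`; if `X ≥ 5` then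
`η ((1-τ) X - τ) ≥ min 2 ((5 (1-τ) - τ + 3)/4) ≥ 2 (1 - τ)`.
`Wd H2 0` is the dilation by `l` of `Wd H' 0`, so `qn (Wd H2 0) 0 0 = l⁻¹ qn (Wd H' 0) 0 0` (S_QT)
and `l := qn (Wd H' 0) 0 0 / qn (Wd H1 0) 0 0` gives equality.  `H1 ≠ H2`: `H2` has different
heights `l` (near `0`) and `2 l`. -/
def S_BB : Prop :=
  ∃ (H1 H2 : Set ℂ) (c1 c2 M C1 C2 q0 : ℝ), HB H1 c1 M ∧ HB H2 c2 M ∧ StarP H1 c1 C1 ∧
    StarP H2 c2 C2 ∧ 0 < q0 ∧ qn (Wd H1 0) 0 0 = q0 ∧ qn (Wd H2 0) 0 0 = q0 ∧ H1 ≠ H2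

/-- **GR** (greedy construction).  Premises S_FK, S_LO, S_CO, S_WD, S_QB.  Induction over `k`,
`Q = Qf q0 k1 k2`, `t_k = k τ`, `G_k = Gd H τ c k` (so `G_{k+1} = G_k ∪ HS (t_{k+1}) (c (k+1))`).  The
flat continuation has `qn ≤ Q (t_{k+1})`: for `k = 0` by hypothesis (and `k2 ≥ 0`), for `k ≥ 1` by
S_FK and the hypothesis of numerics, because `qn = Q` at the steps `k` and `k - 1`.  For
`c = δ = 1/(8 q0)` S_LO gives `qn ≥ 1/(2 δ + t) ≥ 1/(1/(4 q0) + 1/(4 q0)) = 2 q0 ≥ Q (t_{k+1})`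
(`t ≤ b ≤ 1/(4 q0)`).  S_CO and the intermediate value theorem give `c (k+1) ∈ [δ, c k]` with
equality.  `δ ≤ c0`: S_LO for `Wd H 0`, `t = 0`, with every `c > c0`... (`1/(2 c0) ≤ q0`). -/
def S_GR : Prop :=
  ∀ (H : Set ℂ) (c0 M q0 k1 k2 b τ : ℝ) (n : ℕ), HB H c0 M → 0 < q0 → qn (Wd H 0) 0 0 = q0 →
    0 ≤ k1 → 0 ≤ k2 → 0 < τ → (n : ℝ) * τ ≤ b → b ≤ 1 / (8 * q0) / 16 → b ≤ 1 / (4 * q0) →
    (∀ t : ℝ, 0 ≤ t → t ≤ b → Qf q0 k1 k2 t ≤ 2 * q0) →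
    (qn (Wd (H ∪ HS τ c0) τ) τ 0 ≤ q0 * Real.exp (k1 * τ)) →
    (∀ t τ : ℝ, 0 < τ → τ ≤ t → t + τ ≤ b →
      (Qf q0 k1 k2 t ^ 2 + 1152 * τ ^ 2 / (1 / (8 * q0)) ^ 4) *
        ((Qf q0 k1 k2 t + 48 * τ / (1 / (8 * q0)) ^ 2) / Qf q0 k1 k2 (t - τ)) ^
          (4 * τ / (1 / (8 * q0) - 2 * τ)) ≤
      Qf q0 k1 k2 (t + τ) * Qf q0 k1 k2 (t - τ)) →
    ∃ c : ℕ → ℝ, c 0 = c0 ∧ Antitone c ∧ (∀ k, 1 / (8 * q0) ≤ c k) ∧
      ∀ k : ℕ, 1 ≤ k → k ≤ n →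
        qn (Wd (Gd H τ c k) ((k : ℝ) * τ)) (((k : ℝ) * τ : ℝ) : ℂ) 0 = Qf q0 k1 k2 ((k : ℝ) * τ)

/-- **DI** (from the sequences to the functions).  No premise.  `g s = c ⌈s / τ⌉₊` on `(0, b]`,
`b = n τ`; for `T = t_k` the sets `GH H b g` and `Gd H τ c k` agree on `{Re z < T}`, so
`Wd (GH H b g) T = Wd (Gd H τ c k) T` (`HS T y ⊆ G` only depends on `G ∩ {Re z < T}`).  For
`t ∈ (0, b]` take `T = ⌈t/τ⌉₊ τ`. -/
def S_DI : Prop :=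
  ∀ (H : Set ℂ) (c0 M τ : ℝ) (n : ℕ) (c : ℕ → ℝ) (δ : ℝ), HB H c0 M → 0 < τ → 1 ≤ n → 0 < δ →
    c 0 = c0 → Antitone c → (∀ k, δ ≤ c k) →
    ∃ g : ℝ → ℝ, AntitoneOn g (Ioc 0 ((n : ℝ) * τ)) ∧
      (∀ s ∈ Ioc 0 ((n : ℝ) * τ), δ ≤ g s ∧ g s ≤ c0) ∧
      ∀ t ∈ Ioc 0 ((n : ℝ) * τ), ∃ k : ℕ, 1 ≤ k ∧ k ≤ n ∧ t ≤ (k : ℝ) * τ ∧
        (k : ℝ) * τ ≤ t + τ ∧ g ((k : ℝ) * τ) = g t ∧
        Wd (GH H ((n : ℝ) * τ) g) ((k : ℝ) * τ) = Wd (Gd H τ c k) ((k : ℝ) * τ)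

/-- **CC.** `{z ∈ G | Re z < t}` is connected (vertical segments, then the real axis).  `G` itself
is connected, and the vertical segments are in `G`. -/
def S_CC : Prop :=
  ∀ (G : Set ℂ), LD G → (0 : ℂ) ∈ G →
    (∀ t : ℝ, 0 < t → connectedComponentIn {z : ℂ | z ∈ G ∧ z.re < t} 0 = {z | z ∈ G ∧ z.re < t}) ∧
    IsConnected G ∧ ∀ z ∈ G, segment ℝ z (conj z) ⊆ G

/-- **OZ.** If no frontier point is on the line then the zero function is in the class. -/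
def S_OZ : Prop :=
  ∀ (C : Set ℂ) (t : ℝ), (0 : ℂ) ∈ C → (∀ z ∈ frontier C, z.re ≠ t) → sInf (PS C t) = 0

end Pool.Agent.Q75.HM
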