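import Pool.Agent.Q75.HM.Stm

set_option autoImplicit false

/-! # Project HM, lemma UZ (harmonic measure in the half disc), helper75 -/

namespace Pool.Agent.Q75.HM

open Complex Set Metric Filter Topology

open scoped Real ComplexConjugate

theorem t_UZ : S_UZ := by
  refine ⟨⟨fun ζ => 1 - ((2 / π : ℝ) : ℂ) * (I * Complex.log ((1 + I * ζ) / (1 - I * ζ))), ?_, ?_⟩, ?_⟩
  · intro ζ hζ
    rw [mem_ball_zero_iff] at hζ
    have h1 : |ζ.im| < 1 := lt_of_le_of_lt (Complex.abs_im_le_norm ζ) hζ
    rw [abs_lt] at h1
    have hn : 0 < 1 - ‖ζ‖ ^ 2 := by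
      have := norm_nonneg ζ
      nlinarith
    have h0 : 1 - I * ζ ≠ 0 := by
      intro h
      have h2 := congrArg Complex.re h
      simp only [sub_re, one_re, mul_re, I_re, zero_mul, I_im, one_mul, zero_sub, zero_re] at h2
      linarith
    have hN : 0 < Complex.normSq (1 - I * ζ) := Complex.normSq_pos.2 h0
    have hre : 0 < ((1 + I * ζ) / (1 - I * ζ)).re := by
      rw [Complex.div_re]
      simp only [add_re, one_re, mul_re, I_re, zero_mul, I_im, one_mul, zero_sub, sub_re, add_im,
        one_im, mul_im, sub_im, add_zero, zero_add]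
      rw [← add_div]
      apply div_pos _ hN
      rw [Complex.sq_norm, Complex.normSq_apply] at hn
      nlinarith
    have d1 : DifferentiableAt ℂ (fun ζ : ℂ => (1 + I * ζ) / (1 - I * ζ)) ζ :=
      ((differentiableAt_const _).add ((differentiableAt_const _).mul differentiableAt_id)).div
        ((differentiableAt_const _).sub ((differentiableAt_const _).mul differentiableAt_id)) h0
    exact ((differentiableAt_const _).sub ((differentiableAt_const _).mul
      ((differentiableAt_const _).mul (d1.clog (Or.inl hre))))).differentiableWithinAt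
  · intro ζ hζ
    rw [mem_ball_zero_iff] at hζ
    have h1 : |ζ.im| < 1 := lt_of_le_of_lt (Complex.abs_im_le_norm ζ) hζ
    rw [abs_lt] at h1
    have hn : 0 < 1 - ‖ζ‖ ^ 2 := by
      have := norm_nonneg ζ
      nlinarith
    have h0 : 1 - I * ζ ≠ 0 := by
      intro h
      have h2 := congrArg Complex.re h
      simp only [sub_re, one_re, mul_re, I_re, zero_mul, I_im, one_mul, zero_sub, zero_re] at h2
      linarith
    have hN : 0 < Complex.normSq (1 - I * ζ) := Complex.normSq_pos.2 h0
    set w : ℂ := (1 + I * ζ) / (1 - I * ζ) with hw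
    have hre : w.re = (1 - ‖ζ‖ ^ 2) / Complex.normSq (1 - I * ζ) := by
      rw [hw, Complex.div_re]
      simp only [add_re, one_re, mul_re, I_re, zero_mul, I_im, one_mul, zero_sub, sub_re, add_im,
        one_im, mul_im, sub_im, add_zero, zero_add]
      rw [← add_div, Complex.sq_norm, Complex.normSq_apply ζ]
      congr 1
      ring
    have him : w.im = (2 * ζ.re) / Complex.normSq (1 - I * ζ) := by
      rw [hw, Complex.div_im]
      simp only [add_re, one_re, mul_re, I_re, zero_mul, I_im, one_mul, zero_sub, sub_re, add_im,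
        one_im, mul_im, sub_im, add_zero, zero_add]
      rw [← sub_div]
      congr 1
      ring
    have hrepos : 0 < w.re := by rw [hre]; positivity
    have harg : Complex.arg w = Real.arctan (2 * ζ.re / (1 - ‖ζ‖ ^ 2)) := by
      have h2 := Complex.abs_arg_lt_pi_div_two_iff.2 (Or.inl hrepos)
      rw [abs_lt] at h2
      rw [← Real.arctan_tan h2.1 h2.2, Complex.tan_arg, hre, him]
      congr 1
      rw [div_div_div_cancel_right₀ hN.ne']
    have h3 : (1 - ((2 / π : ℝ) : ℂ) * (I * Complex.log w)).re = 1 + 2 / π * Complex.arg w := by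
      rw [Complex.sub_re, Complex.re_ofReal_mul, Complex.one_re, Complex.I_mul_re, Complex.log_im]
      ring
    change (1 - ((2 / π : ℝ) : ℂ) * (I * Complex.log w)).re = U0 ζ
    rw [h3, harg]
    unfold U0
    rw [neg_div, Real.arctan_neg]
    ring
  · intro ρ h0 h1
    unfold U0
    have h2 : ‖(-(ρ : ℂ))‖ = ρ := by rw [norm_neg, Complex.norm_real, Real.norm_of_nonneg h0]
    have h3 : (-(ρ : ℂ)).re = -ρ := by simp
    have h4 := Real.two_mul_arctan (by linarith : -1 < ρ) h1
    rw [h2, h3]
    have h5 : -(2 * -ρ) / (1 - ρ ^ 2) = 2 * ρ / (1 - ρ ^ 2) := by ring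
    rw [h5, ← h4]
    ring

end Pool.Agent.Q75.HM
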